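import Mathlib

/-!
# Counting and summing the positions of the set bits of a natural number

Fast evaluation (shift, mask and add) of the number of set bits and of the sum of their positions,
with proofs of correctness.
-/

set_option autoImplicit false

namespace Pool.Agent.V11292

open Finset

/-- The number with the `n` digits `d 0, d 1, ...` in base `2 ^ w`. -/
def V (w n : ℕ) (d : ℕ → ℕ) : ℕ := ∑ i ∈ range n, d i * 2 ^ (w * i)

lemma V_succ (w n : ℕ) (d : ℕ → ℕ) : V w (n + 1) d = V w n d + d n * 2 ^ (w * n) := by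
  unfold V
  rw [sum_range_succ]

lemma V_lt (w n : ℕ) (d : ℕ → ℕ) (hd : ∀ i < n, d i < 2 ^ w) : V w n d < 2 ^ (w * n) := by
  induction n with
  | zero => simp [V]
  | succ n ih =>
    rw [V_succ]
    have h1 := ih (fun i hi => hd i (by omega))
    have h2 : d n + 1 ≤ 2 ^ w := hd n (by omega)
    have h3 : (d n + 1) * 2 ^ (w * n) ≤ 2 ^ w * 2 ^ (w * n) := Nat.mul_le_mul_right _ h2
    have h4 : 2 ^ (w * (n + 1)) = 2 ^ w * 2 ^ (w * n) := by
      rw [← pow_add]; congr 1; ring
    rw [h4]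
    nlinarith [h3, h1]

lemma testBit_V (w n : ℕ) (hw : 0 < w) (d : ℕ → ℕ) (hd : ∀ i < n, d i < 2 ^ w) (j : ℕ) :
    (V w n d).testBit j = (decide (j / w < n) && (d (j / w)).testBit (j % w)) := by
  induction n with
  | zero => simp [V]
  | succ n ih =>
    have h1 := V_lt w n d (fun i hi => hd i (by omega))
    have h2 : V w (n + 1) d = 2 ^ (w * n) * d n + V w n d := by
      rw [V_succ]; ring
    rw [h2, Nat.testBit_two_pow_mul_add _ h1]
    split_ifs with h3
    · rw [ih (fun i hi => hd i (by omega))]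
      have h4 : j / w < n := by
        rw [Nat.div_lt_iff_lt_mul hw]; rw [mul_comm]; exact h3
      have h5 : j / w < n + 1 := by omega
      simp [h4, h5]
    · push Not at h3
      by_cases h6 : j - w * n < w
      · have h7 : j / w = n := by
          apply Nat.div_eq_of_lt_le
          · rw [mul_comm]; exact h3
          · have : (n + 1) * w = w * n + w := by ring
            omega
        have h8 : j % w = j - w * n := by
          have := Nat.div_add_mod j w
          rw [h7] at this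
          omega
        rw [h7, h8]
        simp
      · push Not at h6
        have h7 : n + 1 ≤ j / w := by
          rw [Nat.le_div_iff_mul_le hw]
          have : (n + 1) * w = w * n + w := by ring
          omega
        have h8 : ¬ j / w < n + 1 := by omega
        have h9 : (d n).testBit (j - w * n) = false := by
          apply Nat.testBit_lt_two_pow
          exact (hd n (by omega)).trans_le (Nat.pow_le_pow_right (by norm_num) h6)
        simp [h8, h9]

/-- The mask with `n` blocks, each of `w` ones below `w` zeros. -/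
def mask (w n : ℕ) : ℕ := (2 ^ (2 * w * n) - 1) / (2 ^ w + 1)

lemma geom (w n : ℕ) : (2 ^ w - 1) * V w n (fun _ => 1) = 2 ^ (w * n) - 1 := by
  induction n with
  | zero => simp [V]
  | succ n ih =>
    rw [V_succ, mul_add, ih]
    have h1 : 2 ^ (w * (n + 1)) = 2 ^ w * 2 ^ (w * n) := by
      rw [← pow_add]; congr 1; ring
    have h2 : 1 ≤ 2 ^ (w * n) := Nat.one_le_two_pow
    have h3 : 1 ≤ 2 ^ w := Nat.one_le_two_pow
    rw [h1, one_mul, Nat.sub_mul, one_mul]
    have h4 : 2 ^ (w * n) ≤ 2 ^ w * 2 ^ (w * n) := by nlinarith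
    omega

lemma V_const (w n c : ℕ) : V w n (fun _ => c) = c * V w n (fun _ => 1) := by
  unfold V
  rw [mul_sum]
  apply sum_congr rfl
  intros; ring

lemma mask_eq (w n : ℕ) : mask w n = V (2 * w) n (fun _ => 2 ^ w - 1) := by
  have h := geom (2 * w) n
  have h1 : 2 ^ (2 * w) - 1 = (2 ^ w + 1) * (2 ^ w - 1) := by
    have : 1 ≤ 2 ^ w := Nat.one_le_two_pow
    obtain ⟨a, ha⟩ := Nat.exists_eq_add_of_le this
    rw [two_mul, pow_add, ha]
    have h2 : 1 + a - 1 = a := by omega
    rw [h2]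
    have h3 : (1 + a) * (1 + a) = (1 + a + 1) * a + 1 := by ring
    omega
  rw [V_const]
  unfold mask
  rw [← h, h1, mul_assoc, Nat.mul_div_cancel_left _ (by positivity)]

lemma testBit_mask (w n : ℕ) (hw : 0 < w) (j : ℕ) :
    (mask w n).testBit j = (decide (j / (2 * w) < n) && decide (j % (2 * w) < w)) := by
  rw [mask_eq, testBit_V _ _ (by omega)]
  · rw [Nat.testBit_two_pow_sub_one]
  · intro i _
    have h1 : 2 ^ w ≤ 2 ^ (2 * w) := Nat.pow_le_pow_right (by norm_num) (by omega)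
    have : 1 ≤ 2 ^ w := Nat.one_le_two_pow
    omega

lemma even_V (w n : ℕ) (hw : 0 < w) (d : ℕ → ℕ) (hd : ∀ i < 2 * n, d i < 2 ^ w) :
    V w (2 * n) d &&& mask w n = V (2 * w) n (fun i => d (2 * i)) := by
  apply Nat.eq_of_testBit_eq
  intro j
  have hle : 2 ^ w ≤ 2 ^ (2 * w) := Nat.pow_le_pow_right (by norm_num) (by omega)
  rw [Nat.testBit_and, testBit_V w _ hw d hd, testBit_mask w n hw,
    testBit_V (2 * w) n (by omega) _ (fun i hi => (hd (2 * i) (by omega)).trans_le hle)]
  have e1 : j / (2 * w) = j / w / 2 := by rw [mul_comm, Nat.div_div_eq_div_mul]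
  by_cases h : j % (2 * w) < w
  · have h1 : j % w = j % (2 * w) := by
      rw [← Nat.mod_mod_of_dvd j (Dvd.intro_left 2 rfl : w ∣ 2 * w), Nat.mod_eq_of_lt h]
    have h2 : j / w = 2 * (j / (2 * w)) := by
      have a1 := Nat.div_add_mod j (2 * w)
      apply Nat.div_eq_of_lt_le
      · calc 2 * (j / (2 * w)) * w = 2 * w * (j / (2 * w)) := by ring
          _ ≤ j := Nat.mul_div_le _ _
      · calc j = 2 * w * (j / (2 * w)) + j % (2 * w) := a1.symm
          _ < 2 * w * (j / (2 * w)) + w := by omega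
          _ = (2 * (j / (2 * w)) + 1) * w := by ring
    rw [h1, ← h2]
    by_cases h3 : j / (2 * w) < n
    · have h4 : j / w < 2 * n := by omega
      simp [h3, h4, h]
    · simp [h3]
  · have h5 : (d (2 * (j / (2 * w)))).testBit (j % (2 * w)) = false ∨ ¬ j / (2 * w) < n := by
      by_cases h3 : j / (2 * w) < n
      · left
        apply Nat.testBit_lt_two_pow
        exact (hd _ (by omega)).trans_le (Nat.pow_le_pow_right (by norm_num) (by omega))
      · right; exact h3
    rcases h5 with h5 | h5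
    · simp [h, h5]
    · simp [h, h5]

lemma odd_V (w n : ℕ) (hw : 0 < w) (d : ℕ → ℕ) (hd : ∀ i < 2 * n, d i < 2 ^ w) :
    (V w (2 * n) d >>> w) &&& mask w n = V (2 * w) n (fun i => d (2 * i + 1)) := by
  apply Nat.eq_of_testBit_eq
  intro j
  have hle : 2 ^ w ≤ 2 ^ (2 * w) := Nat.pow_le_pow_right (by norm_num) (by omega)
  rw [Nat.testBit_and, Nat.testBit_shiftRight, testBit_V w _ hw d hd, testBit_mask w n hw,
    testBit_V (2 * w) n (by omega) _ (fun i hi => (hd (2 * i + 1) (by omega)).trans_le hle)]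
  by_cases h : j % (2 * w) < w
  · have h1 : (w + j) % w = j % (2 * w) := by
      rw [Nat.add_mod_left, ← Nat.mod_mod_of_dvd j (Dvd.intro_left 2 rfl : w ∣ 2 * w),
        Nat.mod_eq_of_lt h]
    have h2 : (w + j) / w = 2 * (j / (2 * w)) + 1 := by
      have a1 := Nat.div_add_mod j (2 * w)
      have a2 : (w + j) / w = j / w + 1 := by
        rw [add_comm, Nat.add_div_right _ hw]
      rw [a2]
      congr 1
      apply Nat.div_eq_of_lt_le
      · calc 2 * (j / (2 * w)) * w = 2 * w * (j / (2 * w)) := by ring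
          _ ≤ j := Nat.mul_div_le _ _
      · calc j = 2 * w * (j / (2 * w)) + j % (2 * w) := a1.symm
          _ < 2 * w * (j / (2 * w)) + w := by omega
          _ = (2 * (j / (2 * w)) + 1) * w := by ring
    rw [h1, h2]
    by_cases h3 : j / (2 * w) < n
    · have h4 : 2 * (j / (2 * w)) + 1 < 2 * n := by omega
      simp [h3, h4, h]
    · simp [h3]
  · have h5 : (d (2 * (j / (2 * w)) + 1)).testBit (j % (2 * w)) = false ∨
        ¬ j / (2 * w) < n := by
      by_cases h3 : j / (2 * w) < n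
      · left
        apply Nat.testBit_lt_two_pow
        exact (hd _ (by omega)).trans_le (Nat.pow_le_pow_right (by norm_num) (by omega))
      · right; exact h3
    rcases h5 with h5 | h5
    · simp [h, h5]
    · simp [h, h5]

/-- One step of the count of bits: `n` fields of width `2 w` from `2 n` fields of width `w`. -/
def stepC (w n C : ℕ) : ℕ := (C &&& mask w n) + ((C >>> w) &&& mask w n)

/-- One step of the sum of the positions. -/
def stepW (w n C W : ℕ) : ℕ :=
  (W &&& mask w n) + ((W >>> w) &&& mask w n) + ((C >>> w) &&& mask w n) * w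

/-- `C` holds `n` counts of width `w`, `W` holds `n` sums of positions. -/
def Inv (w n C W N S : ℕ) : Prop :=
  ∃ c s : ℕ → ℕ, (∀ i < n, c i ≤ w) ∧ (∀ i < n, 2 * s i + w ≤ w * w) ∧ C = V w n c ∧ W = V w n s ∧
    ∑ i ∈ range n, c i = N ∧ ∑ i ∈ range n, (s i + w * i * c i) = S

lemma sum_pairs (n : ℕ) (f : ℕ → ℕ) :
    ∑ i ∈ range (2 * n), f i = ∑ i ∈ range n, (f (2 * i) + f (2 * i + 1)) := by
  induction n with
  | zero => simp
  | succ n ih =>
    rw [show 2 * (n + 1) = 2 * n + 1 + 1 by ring, sum_range_succ, sum_range_succ, sum_range_succ,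
      ih]
    ring

lemma V_add (w n : ℕ) (c d : ℕ → ℕ) : V w n c + V w n d = V w n (fun i => c i + d i) := by
  unfold V
  rw [← sum_add_distrib]
  apply sum_congr rfl
  intros; ring

lemma V_mul (w n k : ℕ) (c : ℕ → ℕ) : V w n c * k = V w n (fun i => c i * k) := by
  unfold V
  rw [sum_mul]
  apply sum_congr rfl
  intros; ring

lemma Inv.step {w n C W N S : ℕ} (hw : 0 < w) (h1 : w < 2 ^ w) (h2 : w * w < 2 * 2 ^ w + w)
    (h : Inv w (2 * n) C W N S) :
    Inv (2 * w) n (stepC w n C) (stepW w n C W) N S := by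
  obtain ⟨c, s, hc, hs, rfl, rfl, rfl, rfl⟩ := h
  have hc' : ∀ i < 2 * n, c i < 2 ^ w := fun i hi => (hc i hi).trans_lt h1
  have hs' : ∀ i < 2 * n, s i < 2 ^ w := fun i hi => by
    have := hs i hi
    omega
  refine ⟨fun i => c (2 * i) + c (2 * i + 1),
    fun i => s (2 * i) + s (2 * i + 1) + c (2 * i + 1) * w, ?_, ?_, ?_, ?_, ?_, ?_⟩
  · intro i hi
    have := hc (2 * i) (by omega)
    have := hc (2 * i + 1) (by omega)
    show c (2 * i) + c (2 * i + 1) ≤ 2 * w
    omega
  · intro i hi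
    have a1 := hs (2 * i) (by omega)
    have a2 := hs (2 * i + 1) (by omega)
    have a3 := hc (2 * i + 1) (by omega)
    show 2 * (s (2 * i) + s (2 * i + 1) + c (2 * i + 1) * w) + 2 * w ≤ 2 * w * (2 * w)
    have a4 : c (2 * i + 1) * w ≤ w * w := Nat.mul_le_mul_right _ a3
    nlinarith
  · unfold stepC
    rw [even_V w n hw c hc', odd_V w n hw c hc', V_add]
  · unfold stepW
    rw [even_V w n hw s hs', odd_V w n hw s hs', odd_V w n hw c hc', V_mul, V_add, V_add]
  · rw [sum_pairs]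
  · rw [sum_pairs]
    apply sum_congr rfl
    intro i _
    ring

lemma V_modEq (w n : ℕ) (d : ℕ → ℕ) :
    V w n d ≡ ∑ i ∈ range n, d i + (2 ^ w - 1) * ∑ i ∈ range n, i * d i
      [MOD (2 ^ w - 1) ^ 2] := by
  have hpow : ∀ i : ℕ, 2 ^ (w * i) ≡ 1 + (2 ^ w - 1) * i [MOD (2 ^ w - 1) ^ 2] := by
    intro i
    induction i with
    | zero => simp; rfl
    | succ i ih =>
      have h1 : 2 ^ (w * (i + 1)) = 2 ^ (w * i) * 2 ^ w := by
        rw [← pow_add]; congr 1
      have h2 : 1 ≤ 2 ^ w := Nat.one_le_two_pow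
      obtain ⟨a, ha⟩ := Nat.exists_eq_add_of_le h2
      rw [h1]
      have h3 := ih.mul_right (2 ^ w)
      refine h3.trans ?_
      rw [ha]
      have h4 : 1 + a - 1 = a := by omega
      rw [h4]
      have h5 : (1 + a * i) * (1 + a) = (1 + a * (i + 1)) + a ^ 2 * i := by ring
      rw [h5]
      exact (Nat.modEq_iff_dvd' (by omega)).2 ⟨i, by
        rw [Nat.add_sub_cancel_left]⟩ |>.symm
  unfold V
  induction n with
  | zero => simp; rfl
  | succ n ih =>
    rw [sum_range_succ, sum_range_succ, sum_range_succ]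
    have h1 := (hpow n).mul_left (d n)
    have h2 := ih.add h1
    refine h2.trans ?_
    have : ∑ x ∈ range n, d x + (2 ^ w - 1) * ∑ x ∈ range n, x * d x +
        d n * (1 + (2 ^ w - 1) * n) =
        ∑ x ∈ range n, d x + d n + (2 ^ w - 1) * (∑ x ∈ range n, x * d x + n * d n) := by ring
    rw [this]

def C1 (t X : ℕ) : ℕ := stepC 1 (32 * t) X
def C2 (t X : ℕ) : ℕ := stepC 2 (16 * t) (C1 t X)
def C3 (t X : ℕ) : ℕ := stepC 4 (8 * t) (C2 t X)
def C4 (t X : ℕ) : ℕ := stepC 8 (4 * t) (C3 t X)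
def C5 (t X : ℕ) : ℕ := stepC 16 (2 * t) (C4 t X)
/-- The 64-bit fields with the counts of the bits. -/
def C6 (t X : ℕ) : ℕ := stepC 32 t (C5 t X)

def W1 (t X : ℕ) : ℕ := stepW 1 (32 * t) X 0
def W2 (t X : ℕ) : ℕ := stepW 2 (16 * t) (C1 t X) (W1 t X)
def W3 (t X : ℕ) : ℕ := stepW 4 (8 * t) (C2 t X) (W2 t X)
def W4 (t X : ℕ) : ℕ := stepW 8 (4 * t) (C3 t X) (W3 t X)
def W5 (t X : ℕ) : ℕ := stepW 16 (2 * t) (C4 t X) (W4 t X)
def W6 (t X : ℕ) : ℕ := stepW 32 t (C5 t X) (W5 t X)

/-- The number of set bits of `X < 2 ^ (64 t)`. -/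
def cnt (t X : ℕ) : ℕ := C6 t X % (2 ^ 64 - 1)

/-- The sum of the positions of the set bits of `X < 2 ^ (64 t)`. -/
def wsum (t X : ℕ) : ℕ :=
  W6 t X % (2 ^ 64 - 1) + 64 * (C6 t X % (2 ^ 64 - 1) ^ 2 / (2 ^ 64 - 1))

lemma inv6 (t X : ℕ) (hX : X < 2 ^ (64 * t)) :
    Inv 64 t (C6 t X) (W6 t X) (∑ j ∈ range (64 * t), (X.testBit j).toNat)
      (∑ j ∈ range (64 * t), j * (X.testBit j).toNat) := by
  have h0 : Inv 1 (2 * (32 * t)) X 0 (∑ j ∈ range (64 * t), (X.testBit j).toNat)
      (∑ j ∈ range (64 * t), j * (X.testBit j).toNat) := by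
    refine ⟨fun j => (X.testBit j).toNat, fun _ => 0, fun i _ => Bool.toNat_le _, fun i _ => by simp,
      ?_, ?_, ?_, ?_⟩
    · apply Nat.eq_of_testBit_eq
      intro j
      rw [testBit_V 1 _ one_pos _ (fun i _ => by
        have := Bool.toNat_le (X.testBit i); omega)]
      simp only [Nat.div_one, Nat.mod_one]
      by_cases hj : j < 2 * (32 * t)
      · simp only [hj, decide_true, Bool.true_and]
        cases X.testBit j <;> simp
      · have : X.testBit j = false := by
          apply Nat.testBit_lt_two_pow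
          exact hX.trans_le (Nat.pow_le_pow_right (by norm_num) (by omega))
        simp [this]
    · simp [V]
    · rw [show 2 * (32 * t) = 64 * t by ring]
    · rw [show 2 * (32 * t) = 64 * t by ring]
      apply sum_congr rfl
      intros; ring
  have h1 := Inv.step (w := 1) (n := 32 * t) (by norm_num) (by norm_num) (by norm_num) h0
  have h2 := Inv.step (w := 2) (n := 16 * t) (by norm_num) (by norm_num) (by norm_num)
    (by rw [show 2 * (16 * t) = 32 * t by ring]; exact h1)
  have h3 := Inv.step (w := 4) (n := 8 * t) (by norm_num) (by norm_num) (by norm_num)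
    (by rw [show 2 * (8 * t) = 16 * t by ring]; exact h2)
  have h4 := Inv.step (w := 8) (n := 4 * t) (by norm_num) (by norm_num) (by norm_num)
    (by rw [show 2 * (4 * t) = 8 * t by ring]; exact h3)
  have h5 := Inv.step (w := 16) (n := 2 * t) (by norm_num) (by norm_num) (by norm_num)
    (by rw [show 2 * (2 * t) = 4 * t by ring]; exact h4)
  have h6 := Inv.step (w := 32) (n := t) (by norm_num) (by norm_num) (by norm_num) h5
  exact h6

theorem cnt_wsum (t X : ℕ) (hX : X < 2 ^ (64 * t)) (ht : t ≤ 2 ^ 24) :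
    cnt t X = ∑ j ∈ range (64 * t), (X.testBit j).toNat ∧
    wsum t X = ∑ j ∈ range (64 * t), j * (X.testBit j).toNat := by
  obtain ⟨c, s, hc, hs, hC, hW, hN, hS⟩ := inv6 t X hX
  have hN1 : ∑ i ∈ range t, c i ≤ 64 * t := by
    calc ∑ i ∈ range t, c i ≤ ∑ i ∈ range t, 64 := sum_le_sum (fun i hi => hc i (mem_range.1 hi))
      _ = 64 * t := by simp [mul_comm]
  have hI : ∑ i ∈ range t, i * c i ≤ t * t * 64 := by
    calc ∑ i ∈ range t, i * c i ≤ ∑ i ∈ range t, t * 64 :=
          sum_le_sum (fun i hi => Nat.mul_le_mul (mem_range.1 hi).le (hc i (mem_range.1 hi)))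
      _ = t * t * 64 := by simp; ring
  have hSs : ∑ i ∈ range t, s i ≤ 2048 * t := by
    calc ∑ i ∈ range t, s i ≤ ∑ i ∈ range t, 2048 :=
          sum_le_sum (fun i hi => by have := hs i (mem_range.1 hi); omega)
      _ = 2048 * t := by simp [mul_comm]
  have htt : t * t ≤ 2 ^ 24 * 2 ^ 24 := Nat.mul_le_mul ht ht
  have hmod := V_modEq 64 t c
  rw [← hC] at hmod
  have hlt : ∑ i ∈ range t, c i + (2 ^ 64 - 1) * ∑ i ∈ range t, i * c i < (2 ^ 64 - 1) ^ 2 := by
    have : ∑ i ∈ range t, i * c i ≤ 2 ^ 54 := by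
      calc _ ≤ t * t * 64 := hI
        _ ≤ 2 ^ 24 * 2 ^ 24 * 64 := Nat.mul_le_mul_right _ htt
        _ = 2 ^ 54 := by norm_num
    have h2 : ∑ i ∈ range t, c i ≤ 2 ^ 30 := by
      calc _ ≤ 64 * t := hN1
        _ ≤ 64 * 2 ^ 24 := Nat.mul_le_mul_left _ ht
        _ = 2 ^ 30 := by norm_num
    calc _ ≤ 2 ^ 30 + (2 ^ 64 - 1) * 2 ^ 54 := Nat.add_le_add h2 (Nat.mul_le_mul_left _ this)
      _ < (2 ^ 64 - 1) ^ 2 := by norm_num
  have hq : C6 t X % (2 ^ 64 - 1) ^ 2 =
      ∑ i ∈ range t, c i + (2 ^ 64 - 1) * ∑ i ∈ range t, i * c i := by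
    rw [hmod, Nat.mod_eq_of_lt hlt]
  have hNlt : ∑ i ∈ range t, c i < 2 ^ 64 - 1 := by
    have : 64 * t ≤ 64 * 2 ^ 24 := Nat.mul_le_mul_left _ ht
    have h3 : 64 * 2 ^ 24 < 2 ^ 64 - 1 := by norm_num
    omega
  constructor
  · rw [← hN]
    unfold cnt
    have h1 : C6 t X % (2 ^ 64 - 1) = C6 t X % (2 ^ 64 - 1) ^ 2 % (2 ^ 64 - 1) := by
      rw [Nat.mod_mod_of_dvd]
      exact dvd_pow_self _ (by norm_num)
    rw [h1, hq, Nat.add_mul_mod_self_left, Nat.mod_eq_of_lt hNlt]
  · rw [← hS]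
    unfold wsum
    rw [hq]
    have h2 : (∑ i ∈ range t, c i + (2 ^ 64 - 1) * ∑ i ∈ range t, i * c i) / (2 ^ 64 - 1) =
        ∑ i ∈ range t, i * c i := by
      rw [Nat.add_mul_div_left _ _ (by norm_num), Nat.div_eq_of_lt hNlt, zero_add]
    rw [h2]
    have hmodW := V_modEq 64 t s
    rw [← hW] at hmodW
    have h3 : W6 t X % (2 ^ 64 - 1) = ∑ i ∈ range t, s i := by
      have h4 : W6 t X ≡ ∑ i ∈ range t, s i + (2 ^ 64 - 1) * ∑ i ∈ range t, i * s i
          [MOD (2 ^ 64 - 1)] := hmodW.of_dvd (dvd_pow_self _ (by norm_num))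
      rw [h4, Nat.add_mul_mod_self_left, Nat.mod_eq_of_lt]
      have : 2048 * t ≤ 2048 * 2 ^ 24 := Nat.mul_le_mul_left _ ht
      have h5 : 2048 * 2 ^ 24 < 2 ^ 64 - 1 := by norm_num
      omega
    rw [h3, sum_add_distrib, mul_sum]
    congr 1
    apply sum_congr rfl
    intros; ring

end Pool.Agent.V11292
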