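import Pool.Agent.V11292.Sieve

/-!
# Power sums of the primes from power sums of rough numbers

A number is `Rg` (rough) when it is odd and no prime `3 ≤ p ≤ 1669` divides it.  For `N < 1693 ^ 3`
the rough numbers up to `N` are `1`, the primes from `1693` on, and the products of two of these primes.
-/

set_option autoImplicit false

namespace Pool.Agent.V11292.PS

open Finset

/-- The odd primes `p ≤ 1669`, each with `(p - 1) / 2`. -/
def la : List (ℕ × ℕ) :=
  [(3, 1), (5, 2), (7, 3), (11, 5), (13, 6), (17, 8), (19, 9), (23, 11), (29, 14), (31, 15), (37,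
  18), (41, 20), (43, 21), (47, 23), (53, 26), (59, 29), (61, 30), (67, 33), (71, 35), (73, 36),
  (79, 39), (83, 41), (89, 44), (97, 48), (101, 50), (103, 51), (107, 53), (109, 54), (113, 56),
  (127, 63), (131, 65), (137, 68), (139, 69), (149, 74), (151, 75), (157, 78), (163, 81), (167,
  83), (173, 86), (179, 89), (181, 90), (191, 95), (193, 96), (197, 98), (199, 99), (211, 105),
  (223, 111), (227, 113), (229, 114), (233, 116), (239, 119), (241, 120), (251, 125), (257, 128),
  (263, 131), (269, 134), (271, 135), (277, 138), (281, 140), (283, 141), (293, 146), (307, 153),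
  (311, 155), (313, 156), (317, 158), (331, 165), (337, 168), (347, 173), (349, 174), (353, 176),
  (359, 179), (367, 183), (373, 186), (379, 189), (383, 191), (389, 194), (397, 198), (401, 200),
  (409, 204), (419, 209), (421, 210), (431, 215), (433, 216), (439, 219), (443, 221), (449, 224),
  (457, 228), (461, 230), (463, 231), (467, 233), (479, 239), (487, 243), (491, 245), (499, 249),
  (503, 251), (509, 254), (521, 260), (523, 261), (541, 270), (547, 273), (557, 278), (563, 281),
  (569, 284), (571, 285), (577, 288), (587, 293), (593, 296), (599, 299), (601, 300), (607, 303),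
  (613, 306), (617, 308), (619, 309), (631, 315), (641, 320), (643, 321), (647, 323), (653, 326),
  (659, 329), (661, 330), (673, 336), (677, 338), (683, 341), (691, 345), (701, 350), (709, 354),
  (719, 359), (727, 363), (733, 366), (739, 369), (743, 371), (751, 375), (757, 378), (761, 380),
  (769, 384), (773, 386), (787, 393), (797, 398), (809, 404), (811, 405), (821, 410), (823, 411),
  (827, 413), (829, 414), (839, 419), (853, 426), (857, 428), (859, 429), (863, 431), (877, 438),
  (881, 440), (883, 441), (887, 443), (907, 453), (911, 455), (919, 459), (929, 464), (937, 468),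
  (941, 470), (947, 473), (953, 476), (967, 483), (971, 485), (977, 488), (983, 491), (991, 495),
  (997, 498), (1009, 504), (1013, 506), (1019, 509), (1021, 510), (1031, 515), (1033, 516), (1039,
  519), (1049, 524), (1051, 525), (1061, 530), (1063, 531), (1069, 534), (1087, 543), (1091, 545),
  (1093, 546), (1097, 548), (1103, 551), (1109, 554), (1117, 558), (1123, 561), (1129, 564),
  (1151, 575), (1153, 576), (1163, 581), (1171, 585), (1181, 590), (1187, 593), (1193, 596),
  (1201, 600), (1213, 606), (1217, 608), (1223, 611), (1229, 614), (1231, 615), (1237, 618),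
  (1249, 624), (1259, 629), (1277, 638), (1279, 639), (1283, 641), (1289, 644), (1291, 645),
  (1297, 648), (1301, 650), (1303, 651), (1307, 653), (1319, 659), (1321, 660), (1327, 663),
  (1361, 680), (1367, 683), (1373, 686), (1381, 690), (1399, 699), (1409, 704), (1423, 711),
  (1427, 713), (1429, 714), (1433, 716), (1439, 719), (1447, 723), (1451, 725), (1453, 726),
  (1459, 729), (1471, 735), (1481, 740), (1483, 741), (1487, 743), (1489, 744), (1493, 746),
  (1499, 749), (1511, 755), (1523, 761), (1531, 765), (1543, 771), (1549, 774), (1553, 776),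
  (1559, 779), (1567, 783), (1571, 785), (1579, 789), (1583, 791), (1597, 798), (1601, 800),
  (1607, 803), (1609, 804), (1613, 806), (1619, 809), (1621, 810), (1627, 813), (1637, 818),
  (1657, 828), (1663, 831), (1667, 833), (1669, 834)]

/-- The primes `11 ≤ p ≤ 1669`, each with the inverse of `-210`. -/
def lp : List (ℕ × ℕ) :=
  [(11, 10), (13, 6), (17, 14), (19, 18), (23, 15), (29, 4), (31, 9), (37, 34), (41, 8), (43, 26),
  (47, 32), (53, 27), (59, 25), (61, 9), (67, 52), (71, 24), (73, 65), (79, 41), (83, 66), (89,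
  25), (97, 6), (101, 63), (103, 77), (107, 27), (109, 41), (113, 106), (127, 26), (131, 63),
  (137, 15), (139, 92), (149, 127), (151, 87), (157, 77), (163, 52), (167, 66), (173, 14), (179,
  127), (181, 156), (191, 10), (193, 34), (197, 106), (199, 18), (211, 1), (223, 103), (227, 187),
  (229, 217), (233, 152), (239, 33), (241, 70), (251, 49), (257, 175), (263, 134), (269, 114),
  (271, 40), (277, 215), (281, 95), (283, 252), (293, 233), (307, 19), (311, 194), (313, 234),
  (317, 80), (331, 238), (337, 69), (347, 38), (349, 231), (353, 79), (359, 306), (367, 180),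
  (373, 119), (379, 305), (383, 31), (389, 276), (397, 138), (401, 21), (409, 37), (419, 417),
  (421, 2), (431, 392), (433, 200), (439, 416), (443, 289), (449, 62), (457, 420), (461, 90),
  (463, 280), (467, 318), (479, 203), (487, 378), (491, 166), (499, 259), (503, 400), (509, 143),
  (521, 325), (523, 391), (541, 389), (547, 112), (557, 61), (563, 126), (569, 485), (571, 329),
  (577, 283), (587, 232), (593, 48), (599, 425), (601, 518), (607, 211), (613, 108), (617, 332),
  (619, 56), (631, 3), (641, 583), (643, 297), (647, 533), (653, 426), (659, 91), (661, 192),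
  (673, 407), (677, 461), (683, 348), (691, 102), (701, 237), (709, 368), (719, 202), (727, 45),
  (733, 548), (739, 278), (743, 697), (751, 540), (757, 155), (761, 366), (769, 509), (773, 173),
  (787, 386), (797, 315), (809, 574), (811, 699), (821, 43), (823, 145), (827, 445), (829, 75),
  (839, 835), (853, 394), (857, 706), (859, 814), (863, 563), (877, 806), (881, 172), (883, 534),
  (887, 604), (907, 704), (911, 308), (919, 477), (929, 261), (937, 58), (941, 587), (947, 239),
  (953, 894), (967, 198), (971, 467), (977, 107), (983, 220), (991, 571), (997, 489), (1009, 812),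
  (1013, 82), (1019, 723), (1021, 880), (1031, 54), (1033, 182), (1039, 94), (1049, 1044), (1051,
  5), (1061, 965), (1063, 491), (1069, 1013), (1087, 999), (1091, 213), (1093, 661), (1097, 747),
  (1103, 562), (1109, 470), (1117, 867), (1123, 1000), (1129, 586), (1151, 718), (1153, 862),
  (1163, 1091), (1171, 842), (1181, 568), (1187, 130), (1193, 267), (1201, 692), (1213, 387),
  (1217, 481), (1223, 99), (1229, 872), (1231, 1061), (1237, 430), (1249, 113), (1259, 1253),
  (1277, 1052), (1279, 1212), (1283, 837), (1289, 178), (1291, 375), (1297, 1192), (1301, 254),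
  (1303, 788), (1307, 890), (1319, 559), (1321, 195), (1327, 1030), (1361, 849), (1367, 345),
  (1373, 1288), (1381, 993), (1399, 926), (1409, 1201), (1423, 454), (1427, 564), (1429, 1150),
  (1433, 116), (1439, 1021), (1447, 503), (1451, 76), (1453, 256), (1459, 132), (1471, 7), (1481,
  1347), (1483, 685), (1487, 1225), (1489, 1411), (1493, 974), (1499, 207), (1511, 295), (1523,
  776), (1531, 226), (1543, 1374), (1549, 804), (1553, 1235), (1559, 438), (1567, 97), (1571,
  980), (1579, 594), (1583, 1485), (1597, 327), (1601, 770), (1607, 176), (1609, 1065), (1613,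
  361), (1619, 1380), (1621, 934), (1627, 798), (1637, 647), (1657, 576), (1663, 293), (1667,
  897), (1669, 151)]

/-- The primes below `43`. -/
def sp : List ℕ := [2, 3, 5, 7, 11, 13, 17, 19, 23, 29, 31, 37, 41]

lemma prime_iff (n : ℕ) (hn : n < 43 * 43) :
    n.Prime ↔ 2 ≤ n ∧ ∀ d ∈ sp, n % d = 0 → n = d := by
  constructor
  · intro h
    refine ⟨h.two_le, fun d hd h0 => ?_⟩
    have hd2 : 2 ≤ d := (by decide : ∀ d ∈ sp, 2 ≤ d) d hd
    rcases (Nat.dvd_prime h).1 (Nat.dvd_of_mod_eq_zero h0) with h1 | h1
    · omega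
    · exact h1.symm
  · rintro ⟨h2, h⟩
    by_contra hnp
    have h3 := Nat.minFac_prime (n := n) (by omega)
    have h4 := Nat.minFac_sq_le_self (n := n) (by omega) hnp
    have h5 : n.minFac < 43 := by nlinarith
    have h6 : n.minFac ∈ sp := by
      generalize n.minFac = p at *
      revert h3
      interval_cases p <;> decide
    have h7 := h n.minFac h6 (Nat.mod_eq_zero_of_dvd (Nat.minFac_dvd n))
    rw [← h7] at h3
    exact hnp h3

/-- No prime below `43`, other than `p` itself, divides `p`. -/
def primB (p : ℕ) : Bool := sp.all (fun d => p % d != 0 || p == d)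

theorem la_ok : ∀ x ∈ la, 0 < x.1 ∧ (2 * x.2 + 1) % x.1 = 0 := by decide +kernel

theorem lp_ok : ∀ x ∈ lp, 0 < x.1 ∧ (210 * x.2 + 1) % x.1 = 0 := by decide +kernel

theorem la_prime' : la.all (fun x => decide (x.1 ≤ 1669) && decide (2 < x.1) && primB x.1) = true := by
  decide +kernel

lemma primB_spec (p : ℕ) (h2 : 2 ≤ p) (hp : p < 43 * 43) : primB p = true ↔ p.Prime := by
  rw [prime_iff p hp]
  unfold primB
  rw [List.all_eq_true]
  constructor
  · intro h
    refine ⟨h2, fun d hd h0 => ?_⟩
    have h3 := h d hd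
    simpa [h0] using h3
  · rintro ⟨-, h⟩ d hd
    by_cases h0 : p % d = 0
    · simp [h d hd h0]
    · simp [h0]

theorem la_prime (x : ℕ × ℕ) (hx : x ∈ la) : x.1.Prime ∧ 2 < x.1 ∧ x.1 ≤ 1669 := by
  have h := List.all_eq_true.1 la_prime' x hx
  simp only [Bool.and_eq_true, decide_eq_true_eq] at h
  obtain ⟨⟨h1, h2⟩, h3⟩ := h
  exact ⟨(primB_spec x.1 (by omega) (by omega)).1 h3, h2, h1⟩

/-- Membership in the list of the first components, as a test. -/
def memB (p : ℕ) (l : List (ℕ × ℕ)) : Bool := l.any (fun x => x.1 == p)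

/-- If `p < 1693` is an odd prime, then it is in the list. -/
def allB (p : ℕ) : Bool :=
  !(decide (2 ≤ p) && decide (p < 1693) && primB p) || (p == 2) || memB p la

theorem la_all' : ∀ a < 40, ∀ b < 43, allB (43 * a + b) = true := by
  decide +kernel

theorem la_all (p : ℕ) (hp : p < 1693) (h : p.Prime) : p = 2 ∨ ∃ x ∈ la, x.1 = p := by
  have h3 : 43 * (p / 43) + p % 43 = p := Nat.div_add_mod p 43
  have h4 := la_all' (p / 43) (by omega) (p % 43) (by omega)
  rw [h3] at h4
  have h6 : primB p = true := (primB_spec p h.two_le (by omega)).2 h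
  unfold allB at h4
  simp only [h.two_le, hp, h6, decide_true, Bool.and_self, Bool.not_true, Bool.false_or,
    Bool.or_eq_true, beq_iff_eq] at h4
  rcases h4 with h5 | h5
  · left; exact h5
  · right
    unfold memB at h5
    rw [List.any_eq_true] at h5
    obtain ⟨x, hx, hx1⟩ := h5
    exact ⟨x, hx, by simpa using hx1⟩

theorem la_lp : la.map Prod.fst = 3 :: 5 :: 7 :: lp.map Prod.fst := by decide +kernel

/-- `n` is rough: no prime `p ≤ 1669` divides it. -/
def Rg (n : ℕ) : Prop := n % 2 = 1 ∧ Rough la n

instance (n : ℕ) : Decidable (Rg n) := by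
  unfold Rg
  infer_instance

lemma Rg_iff (n : ℕ) : Rg n ↔ ∀ p, p.Prime → p < 1693 → ¬ p ∣ n := by
  constructor
  · rintro ⟨h1, h2⟩ p hp hp' hd
    rcases la_all p hp' hp with h3 | ⟨x, hx, rfl⟩
    · subst h3
      omega
    · exact h2 x hx hd
  · intro h
    refine ⟨?_, fun x hx hd => ?_⟩
    · have := h 2 Nat.prime_two (by norm_num)
      omega
    · have h3 := la_prime x hx
      exact h x.1 h3.1 (by omega) hd

lemma rough_map (l l' : List (ℕ × ℕ)) (n : ℕ) (h : l.map Prod.fst = l'.map Prod.fst) :
    Rough l n ↔ Rough l' n := by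
  have h1 : ∀ l : List (ℕ × ℕ), Rough l n ↔ ∀ p ∈ l.map Prod.fst, ¬ p ∣ n := by
    intro l
    unfold Rough
    simp only [List.mem_map]
    constructor
    · rintro h2 p ⟨x, hx, rfl⟩
      exact h2 x hx
    · intro h2 x hx
      exact h2 x.1 ⟨x, hx, rfl⟩
  rw [h1, h1, h]

lemma Rg_iff_lp (n : ℕ) : Rg n ↔ Nat.Coprime n 210 ∧ Rough lp n := by
  have h1 : Rough la n ↔ ¬ 3 ∣ n ∧ ¬ 5 ∣ n ∧ ¬ 7 ∣ n ∧ Rough lp n := by
    have h2 := rough_map la ((3, 0) :: (5, 0) :: (7, 0) :: lp) n la_lp
    rw [h2]
    unfold Rough
    simp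
  unfold Rg
  rw [h1]
  have h3 : Nat.Coprime n 210 ↔ n % 2 = 1 ∧ ¬ 3 ∣ n ∧ ¬ 5 ∣ n ∧ ¬ 7 ∣ n := by
    rw [show 210 = 2 * 3 * 5 * 7 by norm_num, Nat.coprime_mul_iff_right, Nat.coprime_mul_iff_right,
      Nat.coprime_mul_iff_right]
    have e2 : Nat.Coprime n 2 ↔ n % 2 = 1 := by
      rw [Nat.coprime_comm, Nat.Prime.coprime_iff_not_dvd Nat.prime_two]
      omega
    have e3 : Nat.Coprime n 3 ↔ ¬ 3 ∣ n := by
      rw [Nat.coprime_comm, Nat.Prime.coprime_iff_not_dvd Nat.prime_three]
    have e5 : Nat.Coprime n 5 ↔ ¬ 5 ∣ n := by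
      rw [Nat.coprime_comm, Nat.Prime.coprime_iff_not_dvd Nat.prime_five]
    have e7 : Nat.Coprime n 7 ↔ ¬ 7 ∣ n := by
      rw [Nat.coprime_comm, Nat.Prime.coprime_iff_not_dvd (by norm_num)]
    rw [e2, e3, e5, e7]
    tauto
  rw [h3]
  tauto

end Pool.Agent.V11292.PS
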