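import Pool.Agent.V11292.PSum

/-!
# The identity between the power sums of the rough numbers and of the primes
-/

set_option autoImplicit false

namespace Pool.Agent.V11292.PS

open Finset

/-- The power sum of the rough numbers up to `N`. -/
def S (e N : ℕ) : ℕ := ∑ n ∈ (range (N + 1)).filter Rg, n ^ e

/-- The power sum of the primes up to `N`. -/
def Pr (e N : ℕ) : ℕ := ∑ n ∈ (range (N + 1)).filter Nat.Prime, n ^ e

/-- The power sum of the products `p q ≤ N` of two rough numbers `1 < p ≤ q`. -/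
def Q (e N H : ℕ) : ℕ := ∑ p ∈ (range (H + 1)).filter (fun p => Rg p ∧ 1 < p ∧ p * p ≤ N),
  p ^ e * (S e (N / p) - S e (p - 1))

lemma Rg.dvd {n d : ℕ} (h : Rg n) (hd : d ∣ n) : Rg d := by
  rw [Rg_iff] at h ⊢
  exact fun p hp hp' hpd => h p hp hp' (hpd.trans hd)

lemma Rg.mul {a b : ℕ} (ha : Rg a) (hb : Rg b) : Rg (a * b) := by
  rw [Rg_iff] at ha hb ⊢
  intro p hp hp' hpd
  rcases (Nat.Prime.dvd_mul hp).1 hpd with h | h
  · exact ha p hp hp' h
  · exact hb p hp hp' h

lemma Rg.minFac {n : ℕ} (h : Rg n) (h1 : 1 < n) : 1693 ≤ n.minFac := by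
  by_contra hlt
  push Not at hlt
  exact (Rg_iff n).1 h n.minFac (Nat.minFac_prime (by omega)) hlt (Nat.minFac_dvd n)

lemma Rg.prime {n : ℕ} (h : Rg n) (h1 : 1 < n) (h2 : n < 1693 * 1693) : n.Prime := by
  by_contra hnp
  have h3 := Nat.minFac_sq_le_self (n := n) (by omega) hnp
  have h4 := h.minFac h1
  nlinarith

lemma Rg_of_prime {p : ℕ} (hp : p.Prime) (h : 1693 ≤ p) : Rg p := by
  rw [Rg_iff]
  intro q hq hq' hqd
  have := (Nat.prime_dvd_prime_iff_eq hq hp).1 hqd
  omega

lemma Rg_one : Rg 1 := by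
  rw [Rg_iff]
  intro p hp _ hd
  exact hp.one_lt.ne' (Nat.dvd_one.1 hd)

lemma S_eq (e N : ℕ) : S e N = ∑ n ∈ range (N + 1), if Rg n then n ^ e else 0 := by
  unfold S
  rw [sum_filter]

lemma S_sub (e p m : ℕ) (hp : 1 ≤ p) (hm : p ≤ m) :
    ∑ q ∈ (Icc p m).filter Rg, q ^ e = S e m - S e (p - 1) := by
  rw [S_eq, S_eq, sum_filter, show p - 1 + 1 = p by omega]
  have h1 : Icc p m = Ico p (m + 1) := by
    ext x
    simp only [mem_Icc, mem_Ico]
    omega
  rw [h1]
  have h2 := Finset.sum_range_add_sum_Ico (fun n => if Rg n then n ^ e else 0)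
    (show p ≤ m + 1 by omega)
  omega

/-- The products of two primes. -/
lemma comp_sum (e N H : ℕ) (h2 : N < 1693 ^ 3) (hH : N < (H + 1) * (H + 1)) :
    ∑ n ∈ (range (N + 1)).filter (fun n => Rg n ∧ 1 < n ∧ ¬ n.Prime), n ^ e = Q e N H := by
  have hW : Q e N H = ∑ x ∈ ((range (H + 1)).filter (fun p => Rg p ∧ 1 < p ∧ p * p ≤ N)).sigma
      (fun p => (Icc p (N / p)).filter Rg), (x.1 * x.2) ^ e := by
    rw [sum_sigma]
    unfold Q
    apply sum_congr rfl
    intro p hp
    rw [mem_filter] at hp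
    obtain ⟨-, -, h4, h5⟩ := hp
    have h6 : p ≤ N / p := by
      rw [Nat.le_div_iff_mul_le (by omega)]
      exact h5
    rw [← S_sub e p (N / p) (by omega) h6, mul_sum]
    apply sum_congr rfl
    intro q _
    rw [mul_pow]
  rw [hW]
  have hbig : ∀ p q : ℕ, Rg p → Rg q → 1 < p → p ≤ q → p * q ≤ N → p.Prime ∧ q.Prime := by
    intro p q hp hq h1p hpq hN
    have h3 : 1693 ≤ p := (hp.minFac h1p).trans (Nat.minFac_le (by omega))
    have h4 : q < 1693 * 1693 := by
      by_contra hge
      push Not at hge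
      have : 1693 * (1693 * 1693) ≤ p * q := Nat.mul_le_mul h3 hge
      omega
    exact ⟨hp.prime h1p (by omega), hq.prime (by omega) h4⟩
  apply sum_nbij' (i := fun n => (⟨n.minFac, n / n.minFac⟩ : Σ _ : ℕ, ℕ))
    (j := fun x => x.1 * x.2)
  · intro n hn
    simp only [mem_filter, mem_range] at hn
    obtain ⟨h3, h4, h5, h6⟩ := hn
    have hm := Nat.minFac_prime (n := n) (by omega)
    have hmd := Nat.minFac_dvd n
    have hsq := Nat.minFac_sq_le_self (n := n) (by omega) h6
    have hpos : 0 < n.minFac := hm.pos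
    have hmul : n.minFac * (n / n.minFac) = n := Nat.mul_div_cancel' hmd
    simp only [mem_sigma, mem_filter, mem_range, mem_Icc]
    have hmle : n.minFac * n.minFac ≤ n := by rw [← sq]; exact hsq
    refine ⟨⟨?_, h4.dvd hmd, hm.one_lt, by omega⟩, ⟨?_, ?_⟩, h4.dvd (Nat.div_dvd_of_dvd hmd)⟩
    · by_contra hge
      push Not at hge
      have : (H + 1) * (H + 1) ≤ n.minFac * n.minFac := Nat.mul_le_mul hge hge
      omega
    · rw [Nat.le_div_iff_mul_le hpos]
      exact hmle
    · exact Nat.div_le_div_right (by omega)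
  · rintro ⟨p, q⟩ hx
    simp only [mem_sigma, mem_filter, mem_range, mem_Icc] at hx
    obtain ⟨⟨h3, h4, h5, h6⟩, ⟨h7, h8⟩, h9⟩ := hx
    have h10 : p * q ≤ N := by
      rw [mul_comm]
      exact (Nat.le_div_iff_mul_le (by omega)).1 h8
    obtain ⟨hp, hq⟩ := hbig p q h4 h9 h5 h7 h10
    simp only [mem_filter, mem_range]
    refine ⟨by omega, h4.mul h9, by nlinarith, ?_⟩
    exact Nat.not_prime_mul hp.ne_one hq.ne_one
  · intro n hn
    simp only [mem_filter, mem_range] at hn
    exact Nat.mul_div_cancel' (Nat.minFac_dvd n)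
  · rintro ⟨p, q⟩ hx
    simp only [mem_sigma, mem_filter, mem_range, mem_Icc] at hx
    obtain ⟨⟨h3, h4, h5, h6⟩, ⟨h7, h8⟩, h9⟩ := hx
    have h10 : p * q ≤ N := by
      rw [mul_comm]
      exact (Nat.le_div_iff_mul_le (by omega)).1 h8
    obtain ⟨hp, hq⟩ := hbig p q h4 h9 h5 h7 h10
    have h11 : (p * q).minFac = p := by
      apply le_antisymm
      · exact Nat.minFac_le_of_dvd hp.two_le (Dvd.intro q rfl)
      · have h12 := Nat.minFac_prime (n := p * q) (Nat.not_prime_mul hp.ne_one hq.ne_one |> fun _ => by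
          intro h13
          have := Nat.eq_one_of_mul_eq_one_right h13
          exact hp.ne_one this)
        rcases (Nat.Prime.dvd_mul h12).1 (Nat.minFac_dvd (p * q)) with h14 | h14
        · rw [(Nat.prime_dvd_prime_iff_eq h12 hp).1 h14]
        · rw [(Nat.prime_dvd_prime_iff_eq h12 hq).1 h14]
          exact h7
    simp only [h11]
    rw [Nat.mul_div_cancel_left _ hp.pos]
  · intro n hn
    rw [Nat.mul_div_cancel' (Nat.minFac_dvd n)]

/-- **The identity.** -/
theorem identity (e N H : ℕ) (h1 : 1692 ≤ N) (h2 : N < 1693 ^ 3) (hH : N < (H + 1) * (H + 1)) :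
    S e N + Pr e 1692 = 1 + Pr e N + Q e N H := by
  rw [← comp_sum e N H h2 hH]
  have hS : (range (N + 1)).filter Rg = {1} ∪ ((range (N + 1)).filter
      (fun n => n.Prime ∧ 1693 ≤ n) ∪ (range (N + 1)).filter (fun n => Rg n ∧ 1 < n ∧ ¬ n.Prime)) := by
    ext n
    simp only [mem_filter, mem_range, mem_union, mem_singleton]
    constructor
    · rintro ⟨h3, h4⟩
      by_cases h5 : n = 1
      · left; exact h5
      · right
        have h6 : 1 < n := by
          have : n ≠ 0 := by
            rintro rfl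
            have := h4.1
            omega
          omega
        by_cases h7 : n.Prime
        · left
          refine ⟨h3, h7, ?_⟩
          have := h4.minFac h6
          exact this.trans (Nat.minFac_le (by omega))
        · right
          exact ⟨h3, h4, h6, h7⟩
    · rintro (h3 | ⟨h3, h4, h5⟩ | ⟨h3, h4, h5, h6⟩)
      · subst h3
        exact ⟨by omega, Rg_one⟩
      · exact ⟨h3, Rg_of_prime h4 h5⟩
      · exact ⟨h3, h4⟩
  have hP : (range (N + 1)).filter Nat.Prime = (range (1692 + 1)).filter Nat.Prime ∪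
      (range (N + 1)).filter (fun n => n.Prime ∧ 1693 ≤ n) := by
    ext n
    simp only [mem_filter, mem_range, mem_union]
    constructor
    · rintro ⟨h3, h4⟩
      by_cases h5 : n < 1693
      · left; exact ⟨h5, h4⟩
      · right; exact ⟨h3, h4, by omega⟩
    · rintro (⟨h3, h4⟩ | ⟨h3, h4, h5⟩)
      · exact ⟨by omega, h4⟩
      · exact ⟨h3, h4⟩
  have hSe : S e N = 1 + (∑ n ∈ (range (N + 1)).filter (fun n => n.Prime ∧ 1693 ≤ n), n ^ e +
      ∑ n ∈ (range (N + 1)).filter (fun n => Rg n ∧ 1 < n ∧ ¬ n.Prime), n ^ e) := by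
    unfold S
    rw [hS, sum_union, sum_union]
    · simp
    · rw [disjoint_left]
      intro n h3 h4
      simp only [mem_filter] at h3 h4
      exact h4.2.2.2 h3.2.1
    · rw [disjoint_left]
      intro n h3 h4
      simp only [mem_singleton, mem_union, mem_filter] at h3 h4
      subst h3
      rcases h4 with h4 | h4
      · exact Nat.not_prime_one h4.2.1
      · exact lt_irrefl _ h4.2.2.1
  have hPe : Pr e N = Pr e 1692 +
      ∑ n ∈ (range (N + 1)).filter (fun n => n.Prime ∧ 1693 ≤ n), n ^ e := by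
    unfold Pr
    rw [hP, sum_union]
    rw [disjoint_left]
    intro n h3 h4
    simp only [mem_filter, mem_range] at h3 h4
    omega
  rw [hSe, hPe]
  ring

end Pool.Agent.V11292.PS
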