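import Pool.Agent.V11292.PSumB

/-!
# Evaluation of the power sums of the rough numbers from bitmaps
-/

set_option autoImplicit false

namespace Pool.Agent.V11292.PS

open Finset

/-- The counts and the sums of positions of the rough numbers of a segment. -/
lemma seg_spec (q r J M t b : ℕ) (l : List (ℕ × ℕ))
    (hl : ∀ x ∈ l, 0 < x.1 ∧ (q * x.2 + 1) % x.1 = 0) (hb : b ≤ M) (hbt : b ≤ 64 * t)
    (ht : t ≤ 2 ^ 24) :
    (∑ j ∈ range b, if Rough l (r + q * (J + j)) then 1 else 0) + cnt t (comp q r J M l % 2 ^ b)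
      = b ∧
    2 * (∑ j ∈ range b, if Rough l (r + q * (J + j)) then j else 0) +
      2 * wsum t (comp q r J M l % 2 ^ b) + b = b * b := by
  have hlt : comp q r J M l % 2 ^ b < 2 ^ (64 * t) :=
    (Nat.mod_lt _ (by positivity)).trans_le (Nat.pow_le_pow_right (by norm_num) hbt)
  obtain ⟨h1, h2⟩ := cnt_wsum t _ hlt ht
  have hbit : ∀ j, ((comp q r J M l % 2 ^ b).testBit j).toNat =
      if j < b ∧ ¬ Rough l (r + q * (J + j)) then 1 else 0 := by
    intro j
    rw [Nat.testBit_mod_two_pow]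
    by_cases hj : j < b
    · have h3 := testBit_comp q r J M l hl j (by omega)
      have h4 : (∃ x ∈ l, x.1 ∣ r + q * (J + j)) ↔ ¬ Rough l (r + q * (J + j)) := by
        unfold Rough; push Not; rfl
      rw [h4] at h3
      by_cases h5 : Rough l (r + q * (J + j))
      · have h6 : (comp q r J M l).testBit j = false := by
          by_contra h7
          rw [Bool.not_eq_false] at h7
          exact (h3.1 h7) h5
        simp [h6, h5]
      · simp [h3.2 h5, h5, hj]
    · simp [hj]
  have hsum : ∀ f : ℕ → ℕ, ∑ j ∈ range (64 * t),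
      f j * ((comp q r J M l % 2 ^ b).testBit j).toNat =
      ∑ j ∈ range b, if ¬ Rough l (r + q * (J + j)) then f j else 0 := by
    intro f
    have e1 : ∀ j ∈ range (64 * t), f j * ((comp q r J M l % 2 ^ b).testBit j).toNat =
        if j < b ∧ ¬ Rough l (r + q * (J + j)) then f j else 0 := by
      intro j _
      rw [hbit j]
      split_ifs <;> simp
    rw [sum_congr rfl e1, ← sum_filter, ← sum_filter]
    apply sum_congr _ (fun _ _ => rfl)
    ext j
    simp only [mem_filter, mem_range]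
    constructor
    · rintro ⟨_, h⟩; exact h
    · rintro h; exact ⟨by omega, h⟩
  have h3 := hsum (fun _ => 1)
  simp only [one_mul] at h3
  have h4 := hsum (fun j => j)
  rw [h1, h3, h2, h4]
  have hcomb : ∀ f : ℕ → ℕ, (∑ j ∈ range b, if Rough l (r + q * (J + j)) then f j else 0) +
      (∑ j ∈ range b, if ¬ Rough l (r + q * (J + j)) then f j else 0) = ∑ j ∈ range b, f j := by
    intro f
    rw [← sum_add_distrib]
    apply sum_congr rfl
    intro j _
    split_ifs <;> simp_all
  constructor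
  · rw [hcomb (fun _ => 1)]
    simp
  · have h5 := hcomb (fun j => j)
    have h6 : 2 * ∑ j ∈ range b, j + b = b * b := by
      have := Finset.sum_range_id_mul_two b
      rcases b with _ | b
      · simp
      · rw [mul_comm 2, this]
        simp only [Nat.add_sub_cancel]
        ring
    omega

/-- The power sum of the rough numbers `r + 210 j` with `a ≤ j < b`. -/
def T (e r a b : ℕ) : ℕ :=
  ∑ j ∈ Ico a b, if Rough lp (r + 210 * j) then (r + 210 * j) ^ e else 0

/-- The number of rough numbers of a segment. -/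
def seg0 (M t r J b : ℕ) : ℕ := b - cnt t (comp 210 r J M lp % 2 ^ b)

/-- The sum of the rough numbers of a segment. -/
def seg1 (M t r J b : ℕ) : ℕ :=
  (r + 210 * J) * (b - cnt t (comp 210 r J M lp % 2 ^ b)) +
    105 * (b * b - b - 2 * wsum t (comp 210 r J M lp % 2 ^ b))

lemma T_shift (e r J b : ℕ) : T e r J (J + b) =
    ∑ j ∈ range b, if Rough lp (r + 210 * (J + j)) then (r + 210 * (J + j)) ^ e else 0 := by
  unfold T
  rw [Finset.sum_Ico_eq_sum_range, Nat.add_sub_cancel_left]

lemma seg0_spec (M t r J b : ℕ) (hb : b ≤ M) (hbt : M ≤ 64 * t) (ht : t ≤ 2 ^ 24) :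
    seg0 M t r J b = T 0 r J (J + b) := by
  have h := (seg_spec 210 r J M t b lp lp_ok hb (by omega) ht).1
  rw [T_shift]
  unfold seg0
  simp only [pow_zero]
  omega

lemma seg1_spec (M t r J b : ℕ) (hb : b ≤ M) (hbt : M ≤ 64 * t) (ht : t ≤ 2 ^ 24) :
    seg1 M t r J b = T 1 r J (J + b) := by
  obtain ⟨h1, h2⟩ := seg_spec 210 r J M t b lp lp_ok hb (by omega) ht
  have h3 : T 1 r J (J + b) = (r + 210 * J) *
      (∑ j ∈ range b, if Rough lp (r + 210 * (J + j)) then 1 else 0) +
      210 * (∑ j ∈ range b, if Rough lp (r + 210 * (J + j)) then j else 0) := by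
    rw [T_shift, mul_sum, mul_sum, ← sum_add_distrib]
    apply sum_congr rfl
    intro j _
    split_ifs <;> ring
  rw [h3]
  unfold seg1
  have e1 : b - cnt t (comp 210 r J M lp % 2 ^ b) =
      ∑ j ∈ range b, if Rough lp (r + 210 * (J + j)) then 1 else 0 := by omega
  have e2 : b * b - b - 2 * wsum t (comp 210 r J M lp % 2 ^ b) =
      2 * ∑ j ∈ range b, if Rough lp (r + 210 * (J + j)) then j else 0 := by omega
  rw [e1, e2]
  ring

/-- The sum of `f` over the segments of length `M` of `[J, K)`. -/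
def tot (M : ℕ) (f : ℕ → ℕ → ℕ) : ℕ → ℕ → ℕ → ℕ
  | 0, _, _ => 0
  | s + 1, J, K => f J (min M (K - J)) + tot M f s (J + min M (K - J)) K

lemma tot_spec (M e r : ℕ) (f : ℕ → ℕ → ℕ) (hf : ∀ J b, b ≤ M → f J b = T e r J (J + b))
    (s J K : ℕ) (hJ : J ≤ K) (hK : K ≤ J + s * M) : tot M f s J K = T e r J K := by
  induction s generalizing J with
  | zero =>
    have : J = K := by omega
    subst this
    simp [tot, T]
  | succ s ih =>
    have hm1 : min M (K - J) ≤ M := min_le_left _ _
    have hm2 : min M (K - J) ≤ K - J := min_le_right _ _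
    have hK' : K ≤ J + min M (K - J) + s * M := by
      rcases le_total M (K - J) with h | h
      · rw [min_eq_left h]
        have : (s + 1) * M = M + s * M := by ring
        omega
      · rw [min_eq_right h]
        omega
    rw [tot, hf J _ hm1, ih (J + min M (K - J)) (by omega) hK']
    unfold T
    exact Finset.sum_Ico_consecutive _ (by omega) (by omega)

/-- The number of the `j` with `r + 210 j ≤ N`. -/
def K (r N : ℕ) : ℕ := (N + 210 - r) / 210

lemma class_sum (g : ℕ → ℕ) (N : ℕ) : ∑ n ∈ range (N + 1), g n =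
    ∑ r ∈ range 210, ∑ j ∈ range (K r N), g (r + 210 * j) := by
  have h1 : ∑ n ∈ range (N + 1), g n =
      ∑ r ∈ range 210, ∑ n ∈ (range (N + 1)).filter (fun n => n % 210 = r), g n := by
    rw [Finset.sum_fiberwise_of_maps_to]
    intro n _
    rw [mem_range]
    exact Nat.mod_lt _ (by norm_num)
  rw [h1]
  apply sum_congr rfl
  intro r hr
  rw [mem_range] at hr
  apply sum_nbij' (i := fun n => n / 210) (j := fun j => r + 210 * j)
  · intro n hn
    simp only [mem_filter, mem_range] at hn ⊢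
    unfold K
    omega
  · intro j hj
    simp only [mem_filter, mem_range] at hj ⊢
    unfold K at hj
    omega
  · intro n hn
    simp only [mem_filter, mem_range] at hn
    omega
  · intro j _
    omega
  · intro n hn
    simp only [mem_filter, mem_range] at hn
    congr 1
    omega

/-- The reduced residues modulo `210`. -/
def cls : Finset ℕ := (range 210).filter (fun r => Nat.Coprime r 210)

lemma S_class (e N : ℕ) : S e N = ∑ r ∈ cls, T e r 0 (K r N) := by
  rw [S_eq, class_sum]
  unfold cls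
  rw [sum_filter]
  apply sum_congr rfl
  intro r hr
  split_ifs with hc
  · unfold T
    rw [← range_eq_Ico]
    apply sum_congr rfl
    intro j _
    have hcop : Nat.Coprime (r + 210 * j) 210 := by
      rw [Nat.coprime_add_mul_left_left]
      exact hc
    by_cases h : Rough lp (r + 210 * j)
    · rw [if_pos h, if_pos ((Rg_iff_lp _).2 ⟨hcop, h⟩)]
    · rw [if_neg h, if_neg (fun h2 => h ((Rg_iff_lp _).1 h2).2)]
  · apply sum_eq_zero
    intro j _
    rw [if_neg]
    intro h
    apply hc
    have := ((Rg_iff_lp _).1 h).1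
    rwa [Nat.coprime_add_mul_left_left] at this

lemma S_class_diff (e N N' : ℕ) (h : N ≤ N') :
    S e N' = S e N + ∑ r ∈ cls, T e r (K r N) (K r N') := by
  rw [S_class, S_class, ← sum_add_distrib]
  apply sum_congr rfl
  intro r _
  unfold T
  rw [Finset.sum_Ico_consecutive _ (Nat.zero_le _)]
  unfold K
  exact Nat.div_le_div_right (by omega)

/-! ## Small arguments -/

/-- The bitmap of the odd numbers `2 i + 1`, `i < 1391450`, that are not rough. -/
def X : ℕ := comp 2 1 0 1391450 la

/-- `S e (2 L - 1)` for `e = 0`. -/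
def s0 (x L : ℕ) : ℕ := L - cnt (L / 64 + 1) (x % 2 ^ L)

/-- `S e (2 L - 1)` for `e = 1`. -/
def s1 (x L : ℕ) : ℕ :=
  L * L - (2 * wsum (L / 64 + 1) (x % 2 ^ L) + cnt (L / 64 + 1) (x % 2 ^ L))

lemma S_odd (e m : ℕ) : S e m =
    ∑ i ∈ range ((m + 1) / 2), if Rough la (1 + 2 * (0 + i)) then (1 + 2 * i) ^ e else 0 := by
  rw [S_eq]
  have h1 : ∑ n ∈ range (m + 1), (if Rg n then n ^ e else 0) =
      ∑ n ∈ (range (m + 1)).filter (fun n => n % 2 = 1), if Rg n then n ^ e else 0 := by
    rw [sum_filter]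
    apply sum_congr rfl
    intro n _
    by_cases h : n % 2 = 1
    · rw [if_pos h]
    · rw [if_neg h, if_neg (fun h2 => h h2.1)]
  rw [h1]
  apply sum_nbij' (i := fun n => n / 2) (j := fun i => 1 + 2 * i)
  · intro n hn
    simp only [mem_filter, mem_range] at hn ⊢
    omega
  · intro i hi
    simp only [mem_filter, mem_range] at hi ⊢
    omega
  · intro n hn
    simp only [mem_filter, mem_range] at hn
    omega
  · intro i _
    omega
  · intro n hn
    simp only [mem_filter, mem_range] at hn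
    have h2 : 1 + 2 * (0 + n / 2) = n := by omega
    have h3 : 1 + 2 * (n / 2) = n := by omega
    rw [h2, h3]
    by_cases h : Rough la n
    · rw [if_pos h, if_pos ⟨hn.2, h⟩]
    · rw [if_neg h, if_neg (fun h4 => h h4.2)]

lemma s0_spec (m : ℕ) (hm : (m + 1) / 2 ≤ 1391450) : s0 X ((m + 1) / 2) = S 0 m := by
  set L := (m + 1) / 2 with hL
  have h := (seg_spec 2 1 0 1391450 (L / 64 + 1) L la la_ok hm (by omega) (by
    have : L / 64 ≤ 1391450 / 64 := Nat.div_le_div_right hm
    norm_num at this ⊢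
    omega)).1
  rw [S_odd, ← hL]
  simp only [pow_zero]
  unfold s0 X
  omega

lemma s1_spec (m : ℕ) (hm : (m + 1) / 2 ≤ 1391450) : s1 X ((m + 1) / 2) = S 1 m := by
  set L := (m + 1) / 2 with hL
  obtain ⟨h1, h2⟩ := seg_spec 2 1 0 1391450 (L / 64 + 1) L la la_ok hm (by omega) (by
    have : L / 64 ≤ 1391450 / 64 := Nat.div_le_div_right hm
    norm_num at this ⊢
    omega)
  have h3 : S 1 m = (∑ j ∈ range L, if Rough la (1 + 2 * (0 + j)) then 1 else 0) +
      2 * (∑ j ∈ range L, if Rough la (1 + 2 * (0 + j)) then j else 0) := by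
    rw [S_odd, ← hL, mul_sum, ← sum_add_distrib]
    apply sum_congr rfl
    intro j _
    split_ifs <;> ring
  rw [h3]
  unfold s1 X
  omega

/-- The term of `Q` for `p = 2 i + 1`. -/
def term0 (x x' N I i : ℕ) : ℕ :=
  if 846 ≤ i ∧ i < I ∧ x'.testBit i = false then s0 x ((N / (1 + 2 * i) + 1) / 2) - s0 x' i else 0

/-- The term of `Q` for `p = 2 i + 1`. -/
def term1 (x x' N I i : ℕ) : ℕ :=
  if 846 ≤ i ∧ i < I ∧ x'.testBit i = false then
    (1 + 2 * i) * (s1 x ((N / (1 + 2 * i) + 1) / 2) - s1 x' i) else 0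

/-- The short bitmap. -/
def X' : ℕ := X % 2 ^ 34816

lemma X'_mod (L : ℕ) (hL : L ≤ 34816) : X' % 2 ^ L = X % 2 ^ L := by
  unfold X'
  rw [Nat.mod_mod_of_dvd]
  exact pow_dvd_pow 2 hL

lemma s0_short (i : ℕ) (hi : i ≤ 34816) : s0 X' i = S 0 (2 * i) := by
  rw [← s0_spec (2 * i) (by omega), show (2 * i + 1) / 2 = i by omega]
  unfold s0
  rw [X'_mod i hi]

lemma s1_short (i : ℕ) (hi : i ≤ 34816) : s1 X' i = S 1 (2 * i) := by
  rw [← s1_spec (2 * i) (by omega), show (2 * i + 1) / 2 = i by omega]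
  unfold s1
  rw [X'_mod i hi]

lemma X'_testBit (i : ℕ) (hi : i < 34816) : X'.testBit i = false ↔ Rg (1 + 2 * i) := by
  unfold X'
  rw [Nat.testBit_mod_two_pow]
  simp only [hi, decide_true, Bool.true_and]
  have h := testBit_comp 2 1 0 1391450 la la_ok i (by omega)
  rw [zero_add] at h
  have h4 : (∃ x ∈ la, x.1 ∣ 1 + 2 * i) ↔ ¬ Rough la (1 + 2 * i) := by
    unfold Rough; push Not; rfl
  rw [h4] at h
  unfold X Rg
  constructor
  · intro h5
    refine ⟨by omega, ?_⟩
    by_contra h6
    rw [h.2 h6] at h5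
    exact absurd h5 (by simp)
  · rintro ⟨-, h5⟩
    by_contra h6
    rw [Bool.not_eq_false] at h6
    exact (h.1 h6) h5

lemma Q_sum (e N I : ℕ) (hI : I ≤ 34816) (hI1 : 1 ≤ I) (hN : (2 * I - 1) * (2 * I - 1) ≤ N) :
    Q e N (2 * I - 1) = ∑ i ∈ range I, if 846 ≤ i ∧ Rg (1 + 2 * i) then
      (1 + 2 * i) ^ e * (S e (N / (1 + 2 * i)) - S e (2 * i)) else 0 := by
  unfold Q
  rw [show 2 * I - 1 + 1 = 2 * I by omega, ← sum_filter]
  apply sum_nbij' (i := fun n => n / 2) (j := fun i => 1 + 2 * i)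
  · intro p hp
    simp only [mem_filter, mem_range] at hp ⊢
    obtain ⟨h1, h2, h3, h4⟩ := hp
    have h5 := h2.minFac h3
    have h6 : 1693 ≤ p := h5.trans (Nat.minFac_le (by omega))
    have h7 := h2.1
    have h8 : 1 + 2 * (p / 2) = p := by omega
    rw [h8]
    exact ⟨by omega, by omega, h2⟩
  · intro i hi
    simp only [mem_filter, mem_range] at hi ⊢
    refine ⟨by omega, hi.2.2, by omega, ?_⟩
    have : (1 + 2 * i) * (1 + 2 * i) ≤ (2 * I - 1) * (2 * I - 1) :=
      Nat.mul_le_mul (by omega) (by omega)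
    omega
  · intro p hp
    simp only [mem_filter, mem_range] at hp
    have := hp.2.1.1
    omega
  · intro i _
    omega
  · intro p hp
    simp only [mem_filter, mem_range] at hp
    have := hp.2.1.1
    have h8 : 1 + 2 * (p / 2) = p := by omega
    have h9 : 2 * (p / 2) = p - 1 := by omega
    rw [h8, h9]

lemma term0_spec (N I i : ℕ) (hN : N ≤ 4711447171) (hi : i < 34816) :
    term0 X X' N I i = if 846 ≤ i ∧ i < I ∧ Rg (1 + 2 * i) then
      (1 + 2 * i) ^ 0 * (S 0 (N / (1 + 2 * i)) - S 0 (2 * i)) else 0 := by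
  unfold term0
  simp only [X'_testBit i hi]
  by_cases h : 846 ≤ i ∧ i < I ∧ Rg (1 + 2 * i)
  · rw [if_pos h, if_pos h, pow_zero, one_mul, s0_short i (by omega), s0_spec]
    have h1 : N / (1 + 2 * i) ≤ 4711447171 / 1693 := Nat.div_le_div hN (by omega) (by norm_num)
    norm_num at h1
    omega
  · rw [if_neg h, if_neg h]

lemma term1_spec (N I i : ℕ) (hN : N ≤ 4711447171) (hi : i < 34816) :
    term1 X X' N I i = if 846 ≤ i ∧ i < I ∧ Rg (1 + 2 * i) then
      (1 + 2 * i) ^ 1 * (S 1 (N / (1 + 2 * i)) - S 1 (2 * i)) else 0 := by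
  unfold term1
  simp only [X'_testBit i hi]
  by_cases h : 846 ≤ i ∧ i < I ∧ Rg (1 + 2 * i)
  · rw [if_pos h, if_pos h, pow_one, s1_short i (by omega), s1_spec]
    have h1 : N / (1 + 2 * i) ≤ 4711447171 / 1693 := Nat.div_le_div hN (by omega) (by norm_num)
    norm_num at h1
    omega
  · rw [if_neg h, if_neg h]

/-- The sum of `f` over `[a, a + 2 ^ k)`. -/
def bs (f : ℕ → ℕ) : ℕ → ℕ → ℕ
  | 0, a => f a
  | k + 1, a => bs f k a + bs f k (a + 2 ^ k)

lemma bs_spec (f : ℕ → ℕ) (k a : ℕ) : bs f k a = ∑ i ∈ Ico a (a + 2 ^ k), f i := by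
  induction k generalizing a with
  | zero => simp [bs]
  | succ k ih =>
    rw [bs, ih, ih, Finset.sum_Ico_consecutive _ (Nat.le_add_right _ _) (Nat.le_add_right _ _)]
    congr 2
    rw [pow_succ]
    ring

end Pool.Agent.V11292.PS
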