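import Pool.Agent.V11292.PSumC

/-!
# Wrappers for the kernel computations
-/

set_option autoImplicit false

namespace Pool.Agent.V11292.PS

open Finset

/-- One less than the first prime of the sum. -/
def N₁ : ℕ := 2274652150

/-- The last prime of the sum. -/
def N₂ : ℕ := 4711447171

lemma partA (r c : ℕ) (hr : r < 210)
    (h : tot 1083168 (seg0 1083168 16925 r) 10 0 (K r N₁) = c) : T 0 r 0 (K r N₁) = c := by
  rw [← h]
  symm
  apply tot_spec 1083168 0 r
  · intro J b hb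
    exact seg0_spec _ _ _ _ _ hb (by norm_num) (by norm_num)
  · exact Nat.zero_le _
  · unfold K N₁
    omega

lemma partB (r c s : ℕ) (hr : r < 210)
    (h : tot 1160380 (seg0 1160380 18132 r) 10 (K r N₁) (K r N₂) = c ∧
      tot 1160380 (seg1 1160380 18132 r) 10 (K r N₁) (K r N₂) = s) :
    T 0 r (K r N₁) (K r N₂) = c ∧ T 1 r (K r N₁) (K r N₂) = s := by
  have h1 : K r N₁ ≤ K r N₂ := by
    unfold K N₁ N₂
    omega
  have h2 : K r N₂ ≤ K r N₁ + 10 * 1160380 := by
    unfold K N₁ N₂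
    omega
  rw [← h.1, ← h.2]
  constructor
  · symm
    exact tot_spec 1160380 0 r _
      (fun J b hb => seg0_spec _ _ _ _ _ hb (by norm_num) (by norm_num)) 10 _ _ h1 h2
  · symm
    exact tot_spec 1160380 1 r _
      (fun J b hb => seg1_spec _ _ _ _ _ hb (by norm_num) (by norm_num)) 10 _ _ h1 h2

/-- The term of `Q` for `p = 2 i + 1`. -/
def q (e N I i : ℕ) : ℕ :=
  if 846 ≤ i ∧ i < I ∧ Rg (1 + 2 * i) then
    (1 + 2 * i) ^ e * (S e (N / (1 + 2 * i)) - S e (2 * i)) else 0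

lemma partQ0 (N I k a b c : ℕ) (hN : N ≤ 4711447171) (hb : a + 2 ^ k = b) (ha : b ≤ 34816)
    (h : bs (term0 X X' N I) k a = c) : ∑ i ∈ Ico a b, q 0 N I i = c := by
  subst hb
  rw [← h, bs_spec]
  apply sum_congr rfl
  intro i hi
  rw [mem_Ico] at hi
  rw [term0_spec N I i hN (by omega)]
  rfl

lemma partQ1 (N I k a b c : ℕ) (hN : N ≤ 4711447171) (hb : a + 2 ^ k = b) (ha : b ≤ 34816)
    (h : bs (term1 X X' N I) k a = c) : ∑ i ∈ Ico a b, q 1 N I i = c := by
  subst hb
  rw [← h, bs_spec]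
  apply sum_congr rfl
  intro i hi
  rw [mem_Ico] at hi
  rw [term1_spec N I i hN (by omega)]
  rfl

lemma Q_eq (e N I : ℕ) (hI : I ≤ 34816) (hI1 : 1 ≤ I) (hN : (2 * I - 1) * (2 * I - 1) ≤ N) (B : ℕ)
    (hB : I ≤ B) (hB1 : 512 ≤ B) : Q e N (2 * I - 1) = ∑ i ∈ Ico 512 B, q e N I i := by
  rw [Q_sum e N I hI hI1 hN]
  have h1 : ∑ i ∈ range I, (if 846 ≤ i ∧ Rg (1 + 2 * i) then
      (1 + 2 * i) ^ e * (S e (N / (1 + 2 * i)) - S e (2 * i)) else 0) =
      ∑ i ∈ range B, q e N I i := by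
    rw [← Finset.sum_subset (Finset.range_subset_range.2 hB)]
    · apply sum_congr rfl
      intro i hi
      rw [mem_range] at hi
      unfold q
      simp only [hi, true_and]
    · intro i _ hi
      rw [mem_range] at hi
      unfold q
      rw [if_neg]
      tauto
  rw [h1, ← Finset.sum_range_add_sum_Ico _ hB1, Finset.sum_eq_zero, zero_add]
  intro i hi
  rw [mem_range] at hi
  unfold q
  rw [if_neg]
  omega

end Pool.Agent.V11292.PS
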