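import Pool.Agent.V11292.D.A00
import Pool.Agent.V11292.D.A01
import Pool.Agent.V11292.D.A02
import Pool.Agent.V11292.D.A03
import Pool.Agent.V11292.D.A04
import Pool.Agent.V11292.D.A05
import Pool.Agent.V11292.D.A06
import Pool.Agent.V11292.D.A07
import Pool.Agent.V11292.D.A08
import Pool.Agent.V11292.D.A09
import Pool.Agent.V11292.D.A10
import Pool.Agent.V11292.D.A11
import Pool.Agent.V11292.D.A12
import Pool.Agent.V11292.D.A13
import Pool.Agent.V11292.D.A14
import Pool.Agent.V11292.D.A15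
import Pool.Agent.V11292.D.A16
import Pool.Agent.V11292.D.A17
import Pool.Agent.V11292.D.A18
import Pool.Agent.V11292.D.A19
import Pool.Agent.V11292.D.A20
import Pool.Agent.V11292.D.A21
import Pool.Agent.V11292.D.A22
import Pool.Agent.V11292.D.A23
import Pool.Agent.V11292.D.A24
import Pool.Agent.V11292.D.A25
import Pool.Agent.V11292.D.A26
import Pool.Agent.V11292.D.A27
import Pool.Agent.V11292.D.A28
import Pool.Agent.V11292.D.A29
import Pool.Agent.V11292.D.A30
import Pool.Agent.V11292.D.A31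
import Pool.Agent.V11292.D.A32
import Pool.Agent.V11292.D.A33
import Pool.Agent.V11292.D.A34
import Pool.Agent.V11292.D.A35
import Pool.Agent.V11292.D.A36
import Pool.Agent.V11292.D.A37
import Pool.Agent.V11292.D.A38
import Pool.Agent.V11292.D.A39
import Pool.Agent.V11292.D.A40
import Pool.Agent.V11292.D.A41
import Pool.Agent.V11292.D.A42
import Pool.Agent.V11292.D.A43
import Pool.Agent.V11292.D.A44
import Pool.Agent.V11292.D.A45
import Pool.Agent.V11292.D.A46
import Pool.Agent.V11292.D.A47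
import Pool.Agent.V11292.D.Q00
import Pool.Agent.V11292.D.Q01
import Pool.Agent.V11292.D.Q02
import Pool.Agent.V11292.D.Q03
import Pool.Agent.V11292.D.Q04
import Pool.Agent.V11292.D.Q05
import Pool.Agent.V11292.D.Q06
import Pool.Agent.V11292.D.Q07
import Pool.Agent.V11292.D.Q08
import Pool.Agent.V11292.D.Q09
import Pool.Agent.V11292.D.Q10
import Pool.Agent.V11292.D.Q11
import Pool.Agent.V11292.D.Q12
import Pool.Agent.V11292.D.Q13
import Pool.Agent.V11292.D.Q14
import Pool.Agent.V11292.D.Q15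
import Pool.Agent.V11292.D.Q16
import Pool.Agent.V11292.D.Q17
import Pool.Agent.V11292.D.Q18
import Pool.Agent.V11292.D.Q19
import Pool.Agent.V11292.D.Q20
import Pool.Agent.V11292.D.Q21

/-!
# The number and the sum of the primes up to `N₁ = 2274652150` and `N₂ = 4711447171`
-/

set_option autoImplicit false

namespace Pool.Agent.V11292.PS

open Finset

/-- The reduced residues modulo `210`. -/
def clsL : List ℕ := [1, 11, 13, 17, 19, 23, 29, 31, 37, 41, 43, 47, 53, 59, 61, 67, 71, 73, 79, 83, 89, 97, 101,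
  103, 107, 109, 113, 121, 127, 131, 137, 139, 143, 149, 151, 157, 163, 167, 169, 173, 179,
  181, 187, 191, 193, 197, 199, 209]

lemma clsL_nodup : clsL.Nodup := by decide +kernel

lemma clsL_mem : ∀ r < 210, (Nat.Coprime r 210 ↔ r ∈ clsL) := by decide +kernel

lemma clsL_lt : ∀ r ∈ clsL, r < 210 := by decide +kernel

lemma cls_eq : cls = clsL.toFinset := by
  ext r
  unfold cls
  rw [mem_filter, mem_range, List.mem_toFinset]
  constructor
  · rintro ⟨h1, h2⟩
    exact (clsL_mem r h1).1 h2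
  · intro h
    exact ⟨clsL_lt r h, (clsL_mem r (clsL_lt r h)).2 h⟩

lemma cls_sum (f : ℕ → ℕ) : ∑ r ∈ cls, f r =
    f 1 + f 11 + f 13 + f 17 + f 19 + f 23 + f 29 + f 31 + f 37 + f 41 + f 43 + f 47 + f 53 + f
    59 + f 61 + f 67 + f 71 + f 73 + f 79 + f 83 + f 89 + f 97 + f 101 + f 103 + f 107 + f 109
    + f 113 + f 121 + f 127 + f 131 + f 137 + f 139 + f 143 + f 149 + f 151 + f 157 + f 163 + f
    167 + f 169 + f 173 + f 179 + f 181 + f 187 + f 191 + f 193 + f 197 + f 199 + f 209 := by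
  rw [cls_eq, List.sum_toFinset f clsL_nodup]
  simp only [clsL, List.map_cons, List.map_nil, List.sum_cons, List.sum_nil]
  ring

lemma sum48 (f : ℕ → ℕ) {v1 v11 v13 v17 v19 v23 v29 v31 v37 v41 v43 v47 v53 v59 v61 v67 v71 v73 v79 v83 v89 v97 v101
    v103 v107 v109 v113 v121 v127 v131 v137 v139 v143 v149 v151 v157 v163 v167 v169 v173 v179
    v181 v187 v191 v193 v197 v199 v209 : ℕ}
    (h1 : f 1 = v1)
    (h11 : f 11 = v11)
    (h13 : f 13 = v13)
    (h17 : f 17 = v17)
    (h19 : f 19 = v19)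
    (h23 : f 23 = v23)
    (h29 : f 29 = v29)
    (h31 : f 31 = v31)
    (h37 : f 37 = v37)
    (h41 : f 41 = v41)
    (h43 : f 43 = v43)
    (h47 : f 47 = v47)
    (h53 : f 53 = v53)
    (h59 : f 59 = v59)
    (h61 : f 61 = v61)
    (h67 : f 67 = v67)
    (h71 : f 71 = v71)
    (h73 : f 73 = v73)
    (h79 : f 79 = v79)
    (h83 : f 83 = v83)
    (h89 : f 89 = v89)
    (h97 : f 97 = v97)
    (h101 : f 101 = v101)
    (h103 : f 103 = v103)
    (h107 : f 107 = v107)
    (h109 : f 109 = v109)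
    (h113 : f 113 = v113)
    (h121 : f 121 = v121)
    (h127 : f 127 = v127)
    (h131 : f 131 = v131)
    (h137 : f 137 = v137)
    (h139 : f 139 = v139)
    (h143 : f 143 = v143)
    (h149 : f 149 = v149)
    (h151 : f 151 = v151)
    (h157 : f 157 = v157)
    (h163 : f 163 = v163)
    (h167 : f 167 = v167)
    (h169 : f 169 = v169)
    (h173 : f 173 = v173)
    (h179 : f 179 = v179)
    (h181 : f 181 = v181)
    (h187 : f 187 = v187)
    (h191 : f 191 = v191)
    (h193 : f 193 = v193)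
    (h197 : f 197 = v197)
    (h199 : f 199 = v199)
    (h209 : f 209 = v209) :
    Finset.sum cls f =
    v1 + v11 + v13 + v17 + v19 + v23 + v29 + v31 + v37 + v41 + v43 + v47 + v53 + v59 + v61 +
    v67 + v71 + v73 + v79 + v83 + v89 + v97 + v101 + v103 + v107 + v109 + v113 + v121 + v127 +
    v131 + v137 + v139 + v143 + v149 + v151 + v157 + v163 + v167 + v169 + v173 + v179 + v181 +
    v187 + v191 + v193 + v197 + v199 + v209 := by
  rw [cls_sum, h1, h11, h13, h17, h19, h23, h29, h31, h37, h41, h43, h47, h53, h59, h61, h67, h71, h73,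
    h79, h83, h89, h97, h101, h103, h107, h109, h113, h121, h127, h131, h137, h139, h143, h149,
    h151, h157, h163, h167, h169, h173, h179, h181, h187, h191, h193, h197, h199, h209]

lemma S0_1 : S 0 N₁ = 172556706 :=
  (S_class 0 N₁).trans ((sum48 (fun r => T 0 r 0 (K r N₁))
    a1 a11 a13 a17 a19 a23 a29 a31 a37 a41 a43 a47 a53 a59 a61 a67 a71 a73 a79 a83 a89 a97 a101
    a103 a107 a109 a113 a121 a127 a131 a137 a139 a143 a149 a151 a157 a163 a167 a169 a173 a179
    a181 a187 a191 a193 a197 a199 a209).trans (by norm_num))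

lemma add_eq {a b c u v w : ℕ} (h : a = b + c) (hb : b = u) (hc : c = v) (hw : u + v = w) :
    a = w := by omega

lemma add_eq' {a b c v : ℕ} (h : a = b + c) (hc : c = v) : a = b + v := by omega

lemma S0_2 : S 0 N₂ = 357262960 :=
  add_eq (S_class_diff 0 N₁ N₂ (by unfold N₁ N₂; norm_num)) S0_1
    (sum48 (fun r => T 0 r (K r N₁) (K r N₂))
    b1.1 b11.1 b13.1 b17.1 b19.1 b23.1 b29.1 b31.1 b37.1 b41.1 b43.1 b47.1 b53.1 b59.1 b61.1
    b67.1 b71.1 b73.1 b79.1 b83.1 b89.1 b97.1 b101.1 b103.1 b107.1 b109.1 b113.1 b121.1 b127.1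
    b131.1 b137.1 b139.1 b143.1 b149.1 b151.1 b157.1 b163.1 b167.1 b169.1 b173.1 b179.1 b181.1
    b187.1 b191.1 b193.1 b197.1 b199.1 b209.1) (by norm_num)

lemma S1_2 : S 1 N₂ = S 1 N₁ + 645079234061636430 :=
  add_eq' (S_class_diff 1 N₁ N₂ (by unfold N₁ N₂; norm_num))
    ((sum48 (fun r => T 1 r (K r N₁) (K r N₂))
    b1.2 b11.2 b13.2 b17.2 b19.2 b23.2 b29.2 b31.2 b37.2 b41.2 b43.2 b47.2 b53.2 b59.2 b61.2
    b67.2 b71.2 b73.2 b79.2 b83.2 b89.2 b97.2 b101.2 b103.2 b107.2 b109.2 b113.2 b121.2 b127.2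
    b131.2 b137.2 b139.2 b143.2 b149.2 b151.2 b157.2 b163.2 b167.2 b169.2 b173.2 b179.2 b181.2
    b187.2 b191.2 b193.2 b197.2 b199.2 b209.2).trans (by norm_num))

lemma Q0_1 : Q 0 N₁ 47693 = 61548198 := by
  rw [show 47693 = 2 * 23847 - 1 by norm_num, Q_eq 0 N₁ 23847 (by norm_num) (by norm_num)
    (by unfold N₁; norm_num) 24576 (by norm_num) (by norm_num)]
  rw [← Finset.sum_Ico_consecutive (q 0 N₁ 23847) (show 512 ≤ 16384 by norm_num)
    (show 16384 ≤ 24576 by norm_num)]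
  rw [← Finset.sum_Ico_consecutive (q 0 N₁ 23847) (show 512 ≤ 12288 by norm_num)
    (show 12288 ≤ 16384 by norm_num)]
  rw [← Finset.sum_Ico_consecutive (q 0 N₁ 23847) (show 512 ≤ 8192 by norm_num)
    (show 8192 ≤ 12288 by norm_num)]
  rw [← Finset.sum_Ico_consecutive (q 0 N₁ 23847) (show 512 ≤ 6144 by norm_num)
    (show 6144 ≤ 8192 by norm_num)]
  rw [← Finset.sum_Ico_consecutive (q 0 N₁ 23847) (show 512 ≤ 4096 by norm_num)
    (show 4096 ≤ 6144 by norm_num)]
  rw [← Finset.sum_Ico_consecutive (q 0 N₁ 23847) (show 512 ≤ 3072 by norm_num)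
    (show 3072 ≤ 4096 by norm_num)]
  rw [← Finset.sum_Ico_consecutive (q 0 N₁ 23847) (show 512 ≤ 2048 by norm_num)
    (show 2048 ≤ 3072 by norm_num)]
  rw [← Finset.sum_Ico_consecutive (q 0 N₁ 23847) (show 512 ≤ 1536 by norm_num)
    (show 1536 ≤ 2048 by norm_num)]
  rw [← Finset.sum_Ico_consecutive (q 0 N₁ 23847) (show 512 ≤ 1024 by norm_num)
    (show 1024 ≤ 1536 by norm_num)]
  rw [q0A512, q0A1024, q0A1536, q0A2048, q0A3072, q0A4096, q0A6144, q0A8192, q0A12288, q0A16384]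

lemma Q1_1 : Q 1 N₁ 47693 = 73528836634174132 := by
  rw [show 47693 = 2 * 23847 - 1 by norm_num, Q_eq 1 N₁ 23847 (by norm_num) (by norm_num)
    (by unfold N₁; norm_num) 24576 (by norm_num) (by norm_num)]
  rw [← Finset.sum_Ico_consecutive (q 1 N₁ 23847) (show 512 ≤ 16384 by norm_num)
    (show 16384 ≤ 24576 by norm_num)]
  rw [← Finset.sum_Ico_consecutive (q 1 N₁ 23847) (show 512 ≤ 12288 by norm_num)
    (show 12288 ≤ 16384 by norm_num)]
  rw [← Finset.sum_Ico_consecutive (q 1 N₁ 23847) (show 512 ≤ 8192 by norm_num)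
    (show 8192 ≤ 12288 by norm_num)]
  rw [← Finset.sum_Ico_consecutive (q 1 N₁ 23847) (show 512 ≤ 6144 by norm_num)
    (show 6144 ≤ 8192 by norm_num)]
  rw [← Finset.sum_Ico_consecutive (q 1 N₁ 23847) (show 512 ≤ 4096 by norm_num)
    (show 4096 ≤ 6144 by norm_num)]
  rw [← Finset.sum_Ico_consecutive (q 1 N₁ 23847) (show 512 ≤ 3072 by norm_num)
    (show 3072 ≤ 4096 by norm_num)]
  rw [← Finset.sum_Ico_consecutive (q 1 N₁ 23847) (show 512 ≤ 2048 by norm_num)
    (show 2048 ≤ 3072 by norm_num)]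
  rw [← Finset.sum_Ico_consecutive (q 1 N₁ 23847) (show 512 ≤ 1536 by norm_num)
    (show 1536 ≤ 2048 by norm_num)]
  rw [← Finset.sum_Ico_consecutive (q 1 N₁ 23847) (show 512 ≤ 1024 by norm_num)
    (show 1024 ≤ 1536 by norm_num)]
  rw [q1A512, q1A1024, q1A1536, q1A2048, q1A3072, q1A4096, q1A6144, q1A8192, q1A12288, q1A16384]

lemma Q0_2 : Q 0 N₂ 68639 = 135245680 := by
  rw [show 68639 = 2 * 34320 - 1 by norm_num, Q_eq 0 N₂ 34320 (by norm_num) (by norm_num)
    (by unfold N₂; norm_num) 34816 (by norm_num) (by norm_num)]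
  rw [← Finset.sum_Ico_consecutive (q 0 N₂ 34320) (show 512 ≤ 32768 by norm_num)
    (show 32768 ≤ 34816 by norm_num)]
  rw [← Finset.sum_Ico_consecutive (q 0 N₂ 34320) (show 512 ≤ 24576 by norm_num)
    (show 24576 ≤ 32768 by norm_num)]
  rw [← Finset.sum_Ico_consecutive (q 0 N₂ 34320) (show 512 ≤ 16384 by norm_num)
    (show 16384 ≤ 24576 by norm_num)]
  rw [← Finset.sum_Ico_consecutive (q 0 N₂ 34320) (show 512 ≤ 12288 by norm_num)
    (show 12288 ≤ 16384 by norm_num)]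
  rw [← Finset.sum_Ico_consecutive (q 0 N₂ 34320) (show 512 ≤ 8192 by norm_num)
    (show 8192 ≤ 12288 by norm_num)]
  rw [← Finset.sum_Ico_consecutive (q 0 N₂ 34320) (show 512 ≤ 6144 by norm_num)
    (show 6144 ≤ 8192 by norm_num)]
  rw [← Finset.sum_Ico_consecutive (q 0 N₂ 34320) (show 512 ≤ 4096 by norm_num)
    (show 4096 ≤ 6144 by norm_num)]
  rw [← Finset.sum_Ico_consecutive (q 0 N₂ 34320) (show 512 ≤ 3072 by norm_num)
    (show 3072 ≤ 4096 by norm_num)]
  rw [← Finset.sum_Ico_consecutive (q 0 N₂ 34320) (show 512 ≤ 2048 by norm_num)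
    (show 2048 ≤ 3072 by norm_num)]
  rw [← Finset.sum_Ico_consecutive (q 0 N₂ 34320) (show 512 ≤ 1536 by norm_num)
    (show 1536 ≤ 2048 by norm_num)]
  rw [← Finset.sum_Ico_consecutive (q 0 N₂ 34320) (show 512 ≤ 1024 by norm_num)
    (show 1024 ≤ 1536 by norm_num)]
  rw [q0B512, q0B1024, q0B1536, q0B2048, q0B3072, q0B4096, q0B6144, q0B8192, q0B12288, q0B16384,
    q0B24576, q0B32768]

lemma Q1_2 : Q 1 N₂ 68639 = 331583876613675966 := by
  rw [show 68639 = 2 * 34320 - 1 by norm_num, Q_eq 1 N₂ 34320 (by norm_num) (by norm_num)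
    (by unfold N₂; norm_num) 34816 (by norm_num) (by norm_num)]
  rw [← Finset.sum_Ico_consecutive (q 1 N₂ 34320) (show 512 ≤ 32768 by norm_num)
    (show 32768 ≤ 34816 by norm_num)]
  rw [← Finset.sum_Ico_consecutive (q 1 N₂ 34320) (show 512 ≤ 24576 by norm_num)
    (show 24576 ≤ 32768 by norm_num)]
  rw [← Finset.sum_Ico_consecutive (q 1 N₂ 34320) (show 512 ≤ 16384 by norm_num)
    (show 16384 ≤ 24576 by norm_num)]
  rw [← Finset.sum_Ico_consecutive (q 1 N₂ 34320) (show 512 ≤ 12288 by norm_num)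
    (show 12288 ≤ 16384 by norm_num)]
  rw [← Finset.sum_Ico_consecutive (q 1 N₂ 34320) (show 512 ≤ 8192 by norm_num)
    (show 8192 ≤ 12288 by norm_num)]
  rw [← Finset.sum_Ico_consecutive (q 1 N₂ 34320) (show 512 ≤ 6144 by norm_num)
    (show 6144 ≤ 8192 by norm_num)]
  rw [← Finset.sum_Ico_consecutive (q 1 N₂ 34320) (show 512 ≤ 4096 by norm_num)
    (show 4096 ≤ 6144 by norm_num)]
  rw [← Finset.sum_Ico_consecutive (q 1 N₂ 34320) (show 512 ≤ 3072 by norm_num)
    (show 3072 ≤ 4096 by norm_num)]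
  rw [← Finset.sum_Ico_consecutive (q 1 N₂ 34320) (show 512 ≤ 2048 by norm_num)
    (show 2048 ≤ 3072 by norm_num)]
  rw [← Finset.sum_Ico_consecutive (q 1 N₂ 34320) (show 512 ≤ 1536 by norm_num)
    (show 1536 ≤ 2048 by norm_num)]
  rw [← Finset.sum_Ico_consecutive (q 1 N₂ 34320) (show 512 ≤ 1024 by norm_num)
    (show 1024 ≤ 1536 by norm_num)]
  rw [q1B512, q1B1024, q1B1536, q1B2048, q1B3072, q1B4096, q1B6144, q1B8192, q1B12288, q1B16384,
    q1B24576, q1B32768]

lemma Pr0_small : Pr 0 1692 = 263 := by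
  have h : (range (1692 + 1)).filter Nat.Prime = insert 2 ((la.map Prod.fst).toFinset) := by
    ext n
    simp only [mem_filter, mem_range, mem_insert, List.mem_toFinset, List.mem_map]
    constructor
    · rintro ⟨h1, h2⟩
      exact la_all n (by omega) h2
    · rintro (rfl | ⟨x, hx, rfl⟩)
      · exact ⟨by norm_num, Nat.prime_two⟩
      · have := la_prime x hx
        exact ⟨by omega, this.1⟩
  unfold Pr
  rw [h]
  simp only [pow_zero, sum_const, smul_eq_mul, mul_one]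
  decide +kernel

lemma fin0 {s t p q a b c : ℕ} (h : s + t = 1 + p + q) (hs : s = a) (ht : t = 263) (hq : q = b)
    (hc : a + 263 = 1 + c + b) : p = c := by omega

lemma fin1 {s₁ s₂ t p₁ p₂ q₁ q₂ a b₁ b₂ c : ℕ} (h₁ : s₁ + t = 1 + p₁ + q₁)
    (h₂ : s₂ + t = 1 + p₂ + q₂) (hs : s₂ = s₁ + a) (hq₁ : q₁ = b₁) (hq₂ : q₂ = b₂)
    (hc : a + b₁ = c + b₂) : p₂ = p₁ + c := by omega

theorem pi1 : Pr 0 N₁ = 111008770 :=
  fin0 (identity 0 N₁ 47693 (by unfold N₁; norm_num) (by unfold N₁; norm_num)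
    (by unfold N₁; norm_num)) S0_1 Pr0_small Q0_1 (by norm_num)

theorem pi2 : Pr 0 N₂ = 222017542 :=
  fin0 (identity 0 N₂ 68639 (by unfold N₂; norm_num) (by unfold N₂; norm_num)
    (by unfold N₂; norm_num)) S0_2 Pr0_small Q0_2 (by norm_num)

theorem sigma : Pr 1 N₂ = Pr 1 N₁ + 387024194082134596 :=
  fin1 (identity 1 N₁ 47693 (by unfold N₁; norm_num) (by unfold N₁; norm_num)
    (by unfold N₁; norm_num)) (identity 1 N₂ 68639 (by unfold N₂; norm_num)
    (by unfold N₂; norm_num) (by unfold N₂; norm_num)) S1_2 Q1_1 Q1_2 (by norm_num)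

/-- The sum of `f` over the primes up to `N` as a sum over the indices. -/
lemma sum_prime_eq (f : ℕ → ℕ) (N : ℕ) : ∑ n ∈ (range N).filter Nat.Prime, f n =
    ∑ j ∈ range (Nat.count Nat.Prime N), f (Nat.nth Nat.Prime j) := by
  induction N with
  | zero => simp
  | succ N ih =>
    rw [Finset.range_add_one, Finset.filter_insert]
    by_cases h : N.Prime
    · rw [if_pos h, Finset.sum_insert (by simp), ih, Nat.count_succ, if_pos h,
        Finset.sum_range_succ, Nat.nth_count h]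
      ring
    · rw [if_neg h, ih, Nat.count_succ, if_neg h, add_zero]

lemma count_eq (N : ℕ) : Nat.count Nat.Prime (N + 1) = Pr 0 N := by
  unfold Pr
  rw [Nat.count_eq_card_filter_range]
  simp

lemma Pr_one (N : ℕ) : Pr 1 N = ∑ j ∈ range (Pr 0 N), Nat.nth Nat.Prime j := by
  rw [← count_eq, ← sum_prime_eq (fun n => n)]
  unfold Pr
  simp only [pow_one]

lemma sum_shift (f : ℕ → ℕ) (a b : ℕ) (ha : 1 ≤ a) :
    ∑ k ∈ Icc a b, f (k - 1) = ∑ j ∈ Ico (a - 1) b, f j := by
  apply sum_nbij' (i := fun k => k - 1) (j := fun j => j + 1)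
  · intro k hk
    simp only [mem_Icc, mem_Ico] at hk ⊢
    omega
  · intro j hj
    simp only [mem_Icc, mem_Ico] at hj ⊢
    omega
  · intro k hk
    simp only [mem_Icc] at hk
    omega
  · intro j _
    rfl
  · intro k _
    rfl

lemma sum_between {N M a b v : ℕ} (h1 : Pr 0 N = a) (h2 : Pr 0 M = b) (hab : a ≤ b)
    (h : Pr 1 M = Pr 1 N + v) : ∑ k ∈ Icc (a + 1) b, Nat.nth Nat.Prime (k - 1) = v := by
  rw [Pr_one N, Pr_one M, h1, h2,
    ← Finset.sum_range_add_sum_Ico (fun j => Nat.nth Nat.Prime j) hab] at h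
  rw [sum_shift _ _ _ (by omega), Nat.add_sub_cancel]
  exact Nat.add_left_cancel h

theorem main : ∑ k ∈ Icc 111008771 222017542, Nat.nth Nat.Prime (k - 1) =
    387024194082134596 :=
  sum_between pi1 pi2 (by norm_num) sigma

end Pool.Agent.V11292.PS
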