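import Pool.Agent.V11292.Bits

/-!
# A sieve on the bits of a natural number

`comp q r J M l` is the number whose bit `j < M` is set if and only if one of the primes of the list `l`
divides `r + q (J + j)`.
-/

set_option autoImplicit false

namespace Pool.Agent.V11292

open Finset

/-- The number with the bits `0, p, 2 p, ..., (T - 1) p`. -/
def R (p T : ℕ) : ℕ := (2 ^ (p * T) - 1) / (2 ^ p - 1)

lemma R_eq (p T : ℕ) (hp : 0 < p) : R p T = V p T (fun _ => 1) := by
  unfold R
  rw [← geom, Nat.mul_div_cancel_left]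
  have : 2 ^ 1 ≤ 2 ^ p := Nat.pow_le_pow_right (by norm_num) hp
  omega

lemma testBit_R (p T j : ℕ) (hp : 0 < p) :
    (R p T).testBit j = (decide (j / p < T) && decide (j % p = 0)) := by
  have h1 : (1 : ℕ).testBit (j % p) = decide (j % p = 0) := by
    have := @Nat.testBit_two_pow 0 (j % p)
    rw [pow_zero] at this
    rw [this]
    congr 1
    exact propext eq_comm
  rw [R_eq p T hp, testBit_V p T hp]
  · rw [h1]
  · intro i _
    have : 2 ^ 1 ≤ 2 ^ p := Nat.pow_le_pow_right (by norm_num) hp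
    omega

/-- The shift for the prime `p`, where `q c ≡ -1 mod p`. -/
def shiftOf (q r J p c : ℕ) : ℕ := ((r + q * J) * c) % p

/-- The bitmap of the `j < M` for which one of the primes `p` of the list divides `r + q (J + j)`. -/
def comp (q r J M : ℕ) (l : List (ℕ × ℕ)) : ℕ :=
  (l.foldl (fun acc x => acc ||| (R x.1 (M / x.1 + 1) <<< shiftOf q r J x.1 x.2)) 0) % 2 ^ M

lemma testBit_foldl (q r J M : ℕ) (l : List (ℕ × ℕ)) (a j : ℕ) :
    (l.foldl (fun acc x => acc ||| (R x.1 (M / x.1 + 1) <<< shiftOf q r J x.1 x.2)) a).testBit j =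
      true ↔ a.testBit j = true ∨
        ∃ x ∈ l, (R x.1 (M / x.1 + 1) <<< shiftOf q r J x.1 x.2).testBit j = true := by
  induction l generalizing a with
  | nil => simp
  | cons x l ih =>
    rw [List.foldl_cons, ih, Nat.testBit_or, Bool.or_eq_true]
    simp only [List.mem_cons, exists_eq_or_imp]
    tauto

lemma shift_spec (q r J p c M j : ℕ) (hp : 0 < p) (hc : (q * c + 1) % p = 0) (hj : j < M) :
    (R p (M / p + 1) <<< shiftOf q r J p c).testBit j = true ↔ p ∣ r + q * (J + j) := by
  rw [Nat.testBit_shiftLeft, testBit_R _ _ _ hp]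
  set s := shiftOf q r J p c with hs
  have hsp : s < p := Nat.mod_lt _ hp
  -- `p ∣ r + q (J + j)` iff `j ≡ s`
  have key : p ∣ r + q * (J + j) ↔ j ≡ s [MOD p] := by
    have hc' : p ∣ q * c + 1 := Nat.dvd_of_mod_eq_zero hc
    have hsmod : s ≡ (r + q * J) * c [MOD p] := Nat.mod_modEq _ _
    have hcop : Nat.Coprime p c := by
      rw [Nat.coprime_iff_gcd_eq_one]
      have h1 : Nat.gcd p c ∣ q * c + 1 := (Nat.gcd_dvd_left p c).trans hc'
      have h2 : Nat.gcd p c ∣ q * c := (Nat.gcd_dvd_right p c).mul_left q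
      exact Nat.dvd_one.1 ((Nat.dvd_add_right h2).1 h1)
    have hqc : (r + q * (J + j)) * c + j ≡ (r + q * J) * c [MOD p] := by
      have h3 : (r + q * (J + j)) * c + j = (r + q * J) * c + (q * c + 1) * j := by ring
      rw [h3]
      have h4 : (q * c + 1) * j ≡ 0 [MOD p] :=
        (Nat.modEq_zero_iff_dvd.2 (hc'.mul_right j))
      simpa using (Nat.ModEq.refl ((r + q * J) * c)).add h4
    constructor
    · intro h
      have h5 : (r + q * (J + j)) * c ≡ 0 [MOD p] := Nat.modEq_zero_iff_dvd.2 (h.mul_right c)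
      have h6 : (r + q * (J + j)) * c + j ≡ 0 + j [MOD p] := h5.add_right j
      rw [zero_add] at h6
      exact (h6.symm.trans hqc).trans hsmod.symm
    · intro h
      have h7 : (r + q * (J + j)) * c + j ≡ 0 + j [MOD p] := by
        rw [zero_add]
        exact hqc.trans (hsmod.symm.trans h.symm)
      have h8 : (r + q * (J + j)) * c ≡ 0 [MOD p] := Nat.ModEq.add_right_cancel' j h7
      exact hcop.dvd_of_dvd_mul_right (Nat.modEq_zero_iff_dvd.1 h8)
  rw [key]
  simp only [ge_iff_le, Bool.and_eq_true, decide_eq_true_eq]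
  constructor
  · rintro ⟨h1, -, h2⟩
    have h3 := Nat.dvd_of_mod_eq_zero h2
    exact ((Nat.modEq_iff_dvd' h1).2 h3).symm
  · intro h
    have h1 : s ≤ j := by
      by_contra hlt
      push Not at hlt
      have h2 : j % p = s % p := h
      rw [Nat.mod_eq_of_lt hsp, Nat.mod_eq_of_lt (hlt.trans hsp)] at h2
      omega
    refine ⟨h1, ?_, ?_⟩
    · rw [Nat.lt_succ_iff]
      exact Nat.div_le_div_right (by omega)
    · exact Nat.mod_eq_zero_of_dvd ((Nat.modEq_iff_dvd' h1).1 h.symm)

theorem testBit_comp (q r J M : ℕ) (l : List (ℕ × ℕ))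
    (hl : ∀ x ∈ l, 0 < x.1 ∧ (q * x.2 + 1) % x.1 = 0) (j : ℕ) (hj : j < M) :
    (comp q r J M l).testBit j = true ↔ ∃ x ∈ l, x.1 ∣ r + q * (J + j) := by
  unfold comp
  rw [Nat.testBit_mod_two_pow]
  simp only [hj, decide_true, Bool.true_and]
  rw [testBit_foldl]
  simp only [Nat.zero_testBit, Bool.false_eq_true, false_or]
  constructor
  · rintro ⟨x, hx, h⟩
    exact ⟨x, hx, (shift_spec q r J x.1 x.2 M j (hl x hx).1 (hl x hx).2 hj).1 h⟩
  · rintro ⟨x, hx, h⟩
    exact ⟨x, hx, (shift_spec q r J x.1 x.2 M j (hl x hx).1 (hl x hx).2 hj).2 h⟩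

lemma comp_lt (q r J M : ℕ) (l : List (ℕ × ℕ)) : comp q r J M l < 2 ^ M :=
  Nat.mod_lt _ (by positivity)

/-- A number is rough if no prime of the list divides it. -/
def Rough (l : List (ℕ × ℕ)) (n : ℕ) : Prop := ∀ x ∈ l, ¬ x.1 ∣ n

instance (l : List (ℕ × ℕ)) (n : ℕ) : Decidable (Rough l n) := by
  unfold Rough
  infer_instance

/-- The count of the marked positions of a slice of the bitmap. -/
lemma slice_cnt (q r J M : ℕ) (l : List (ℕ × ℕ))
    (hl : ∀ x ∈ l, 0 < x.1 ∧ (q * x.2 + 1) % x.1 = 0) (a b t : ℕ) (hab : a + b ≤ M)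
    (hbt : b ≤ 64 * t) (ht : t ≤ 2 ^ 24) :
    ((range b).filter (fun j => Rough l (r + q * (J + (a + j))))).card +
      cnt t ((comp q r J M l >>> a) % 2 ^ b) = b := by
  have hlt : (comp q r J M l >>> a) % 2 ^ b < 2 ^ (64 * t) :=
    (Nat.mod_lt _ (by positivity)).trans_le (Nat.pow_le_pow_right (by norm_num) hbt)
  rw [(cnt_wsum t _ hlt ht).1]
  have h1 : ∀ j ∈ range (64 * t), (((comp q r J M l >>> a) % 2 ^ b).testBit j).toNat =
      if j ∈ (range b).filter (fun j => ¬ Rough l (r + q * (J + (a + j)))) then 1 else 0 := by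
    intro j _
    rw [Nat.testBit_mod_two_pow, Nat.testBit_shiftRight]
    by_cases hj : j < b
    · have h2 := testBit_comp q r J M l hl (a + j) (by omega)
      have h3 : (∃ x ∈ l, x.1 ∣ r + q * (J + (a + j))) ↔ ¬ Rough l (r + q * (J + (a + j))) := by
        unfold Rough; push Not; rfl
      rw [h3] at h2
      simp only [hj, decide_true, Bool.true_and, mem_filter, mem_range, true_and]
      by_cases h4 : Rough l (r + q * (J + (a + j)))
      · have h5 : (comp q r J M l).testBit (a + j) = false := by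
          by_contra h6
          rw [Bool.not_eq_false] at h6
          exact (h2.1 h6) h4
        simp [h5, h4]
      · simp [h2.2 h4, h4]
    · simp [hj]
  rw [sum_congr rfl h1, ← sum_filter, sum_const, smul_eq_mul, mul_one]
  have h2 : (range (64 * t)).filter
      (fun j => j ∈ (range b).filter (fun j => ¬ Rough l (r + q * (J + (a + j))))) =
      (range b).filter (fun j => ¬ Rough l (r + q * (J + (a + j)))) := by
    ext j
    simp only [mem_filter, mem_range]
    constructor
    · rintro ⟨_, h⟩; exact h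
    · rintro h; exact ⟨by omega, h⟩
  rw [h2]
  have h3 := Finset.card_filter_add_card_filter_not (s := range b)
    (fun j => Rough l (r + q * (J + (a + j))))
  rw [card_range] at h3
  exact h3

end Pool.Agent.V11292
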