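import Pool.Agent.V11292.Sieve

/-!
# The numbers `π(1471 k)`, `1 ≤ k ≤ 6150`, are not triangular
-/

set_option autoImplicit false

namespace Pool.Agent.V11292.Tri

open Finset

/-- The odd primes `p ≤ 3001`, each with `(p - 1) / 2`. -/
def l2 : List (ℕ × ℕ) :=
  [(3, 1), (5, 2), (7, 3), (11, 5), (13, 6), (17, 8), (19, 9), (23, 11), (29, 14), (31, 15), (37,
  18), (41, 20), (43, 21), (47, 23), (53, 26), (59, 29), (61, 30), (67, 33), (71, 35), (73, 36),
  (79, 39), (83, 41), (89, 44), (97, 48), (101, 50), (103, 51), (107, 53), (109, 54), (113, 56),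
  (127, 63), (131, 65), (137, 68), (139, 69), (149, 74), (151, 75), (157, 78), (163, 81), (167, 83),
  (173, 86), (179, 89), (181, 90), (191, 95), (193, 96), (197, 98), (199, 99), (211, 105), (223,
  111), (227, 113), (229, 114), (233, 116), (239, 119), (241, 120), (251, 125), (257, 128), (263,
  131), (269, 134), (271, 135), (277, 138), (281, 140), (283, 141), (293, 146), (307, 153), (311,
  155), (313, 156), (317, 158), (331, 165), (337, 168), (347, 173), (349, 174), (353, 176), (359,
  179), (367, 183), (373, 186), (379, 189), (383, 191), (389, 194), (397, 198), (401, 200), (409,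
  204), (419, 209), (421, 210), (431, 215), (433, 216), (439, 219), (443, 221), (449, 224), (457,
  228), (461, 230), (463, 231), (467, 233), (479, 239), (487, 243), (491, 245), (499, 249), (503,
  251), (509, 254), (521, 260), (523, 261), (541, 270), (547, 273), (557, 278), (563, 281), (569,
  284), (571, 285), (577, 288), (587, 293), (593, 296), (599, 299), (601, 300), (607, 303), (613,
  306), (617, 308), (619, 309), (631, 315), (641, 320), (643, 321), (647, 323), (653, 326), (659,
  329), (661, 330), (673, 336), (677, 338), (683, 341), (691, 345), (701, 350), (709, 354), (719,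
  359), (727, 363), (733, 366), (739, 369), (743, 371), (751, 375), (757, 378), (761, 380), (769,
  384), (773, 386), (787, 393), (797, 398), (809, 404), (811, 405), (821, 410), (823, 411), (827,
  413), (829, 414), (839, 419), (853, 426), (857, 428), (859, 429), (863, 431), (877, 438), (881,
  440), (883, 441), (887, 443), (907, 453), (911, 455), (919, 459), (929, 464), (937, 468), (941,
  470), (947, 473), (953, 476), (967, 483), (971, 485), (977, 488), (983, 491), (991, 495), (997,
  498), (1009, 504), (1013, 506), (1019, 509), (1021, 510), (1031, 515), (1033, 516), (1039, 519),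
  (1049, 524), (1051, 525), (1061, 530), (1063, 531), (1069, 534), (1087, 543), (1091, 545), (1093,
  546), (1097, 548), (1103, 551), (1109, 554), (1117, 558), (1123, 561), (1129, 564), (1151, 575),
  (1153, 576), (1163, 581), (1171, 585), (1181, 590), (1187, 593), (1193, 596), (1201, 600), (1213,
  606), (1217, 608), (1223, 611), (1229, 614), (1231, 615), (1237, 618), (1249, 624), (1259, 629),
  (1277, 638), (1279, 639), (1283, 641), (1289, 644), (1291, 645), (1297, 648), (1301, 650), (1303,
  651), (1307, 653), (1319, 659), (1321, 660), (1327, 663), (1361, 680), (1367, 683), (1373, 686),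
  (1381, 690), (1399, 699), (1409, 704), (1423, 711), (1427, 713), (1429, 714), (1433, 716), (1439,
  719), (1447, 723), (1451, 725), (1453, 726), (1459, 729), (1471, 735), (1481, 740), (1483, 741),
  (1487, 743), (1489, 744), (1493, 746), (1499, 749), (1511, 755), (1523, 761), (1531, 765), (1543,
  771), (1549, 774), (1553, 776), (1559, 779), (1567, 783), (1571, 785), (1579, 789), (1583, 791),
  (1597, 798), (1601, 800), (1607, 803), (1609, 804), (1613, 806), (1619, 809), (1621, 810), (1627,
  813), (1637, 818), (1657, 828), (1663, 831), (1667, 833), (1669, 834), (1693, 846), (1697, 848),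
  (1699, 849), (1709, 854), (1721, 860), (1723, 861), (1733, 866), (1741, 870), (1747, 873), (1753,
  876), (1759, 879), (1777, 888), (1783, 891), (1787, 893), (1789, 894), (1801, 900), (1811, 905),
  (1823, 911), (1831, 915), (1847, 923), (1861, 930), (1867, 933), (1871, 935), (1873, 936), (1877,
  938), (1879, 939), (1889, 944), (1901, 950), (1907, 953), (1913, 956), (1931, 965), (1933, 966),
  (1949, 974), (1951, 975), (1973, 986), (1979, 989), (1987, 993), (1993, 996), (1997, 998), (1999,
  999), (2003, 1001), (2011, 1005), (2017, 1008), (2027, 1013), (2029, 1014), (2039, 1019), (2053,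
  1026), (2063, 1031), (2069, 1034), (2081, 1040), (2083, 1041), (2087, 1043), (2089, 1044), (2099,
  1049), (2111, 1055), (2113, 1056), (2129, 1064), (2131, 1065), (2137, 1068), (2141, 1070), (2143,
  1071), (2153, 1076), (2161, 1080), (2179, 1089), (2203, 1101), (2207, 1103), (2213, 1106), (2221,
  1110), (2237, 1118), (2239, 1119), (2243, 1121), (2251, 1125), (2267, 1133), (2269, 1134), (2273,
  1136), (2281, 1140), (2287, 1143), (2293, 1146), (2297, 1148), (2309, 1154), (2311, 1155), (2333,
  1166), (2339, 1169), (2341, 1170), (2347, 1173), (2351, 1175), (2357, 1178), (2371, 1185), (2377,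
  1188), (2381, 1190), (2383, 1191), (2389, 1194), (2393, 1196), (2399, 1199), (2411, 1205), (2417,
  1208), (2423, 1211), (2437, 1218), (2441, 1220), (2447, 1223), (2459, 1229), (2467, 1233), (2473,
  1236), (2477, 1238), (2503, 1251), (2521, 1260), (2531, 1265), (2539, 1269), (2543, 1271), (2549,
  1274), (2551, 1275), (2557, 1278), (2579, 1289), (2591, 1295), (2593, 1296), (2609, 1304), (2617,
  1308), (2621, 1310), (2633, 1316), (2647, 1323), (2657, 1328), (2659, 1329), (2663, 1331), (2671,
  1335), (2677, 1338), (2683, 1341), (2687, 1343), (2689, 1344), (2693, 1346), (2699, 1349), (2707,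
  1353), (2711, 1355), (2713, 1356), (2719, 1359), (2729, 1364), (2731, 1365), (2741, 1370), (2749,
  1374), (2753, 1376), (2767, 1383), (2777, 1388), (2789, 1394), (2791, 1395), (2797, 1398), (2801,
  1400), (2803, 1401), (2819, 1409), (2833, 1416), (2837, 1418), (2843, 1421), (2851, 1425), (2857,
  1428), (2861, 1430), (2879, 1439), (2887, 1443), (2897, 1448), (2903, 1451), (2909, 1454), (2917,
  1458), (2927, 1463), (2939, 1469), (2953, 1476), (2957, 1478), (2963, 1481), (2969, 1484), (2971,
  1485), (2999, 1499), (3001, 1500)]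

/-- The primes below `59`. -/
def sp : List ℕ := [2, 3, 5, 7, 11, 13, 17, 19, 23, 29, 31, 37, 41, 43, 47, 53]

lemma prime_iff (n : ℕ) (hn : n < 59 * 59) :
    n.Prime ↔ 2 ≤ n ∧ ∀ d ∈ sp, n % d = 0 → n = d := by
  constructor
  · intro h
    refine ⟨h.two_le, fun d hd h0 => ?_⟩
    have hd2 : 2 ≤ d := (by decide : ∀ d ∈ sp, 2 ≤ d) d hd
    rcases (Nat.dvd_prime h).1 (Nat.dvd_of_mod_eq_zero h0) with h1 | h1
    · omega
    · exact h1.symm
  · rintro ⟨h2, h⟩
    by_contra hnp
    have h3 := Nat.minFac_prime (n := n) (by omega)
    have h4 := Nat.minFac_sq_le_self (n := n) (by omega) hnp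
    have h5 : n.minFac < 59 := by nlinarith
    have h6 : n.minFac ∈ sp := by
      generalize n.minFac = p at *
      revert h3
      interval_cases p <;> decide
    have h7 := h n.minFac h6 (Nat.mod_eq_zero_of_dvd (Nat.minFac_dvd n))
    rw [← h7] at h3
    exact hnp h3

theorem l2_ok : ∀ x ∈ l2, 0 < x.1 ∧ (2 * x.2 + 1) % x.1 = 0 := by decide +kernel

theorem l2_prime' : ∀ x ∈ l2, x.1 < 59 * 59 ∧ 2 < x.1 ∧ ∀ d ∈ sp, x.1 % d = 0 → x.1 = d := by
  decide +kernel

theorem l2_prime (x : ℕ × ℕ) (hx : x ∈ l2) : x.1.Prime ∧ 2 < x.1 ∧ x.1 < 59 * 59 := by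
  obtain ⟨h1, h2, h3⟩ := l2_prime' x hx
  exact ⟨(prime_iff x.1 h1).2 ⟨by omega, h3⟩, h2, h1⟩

/-- A prime below `3011` is `2` or in the list. -/
def good (p : ℕ) : Bool :=
  !(decide (p < 3011) && decide (2 ≤ p) && sp.all (fun d => decide (p % d = 0 → p = d))) ||
    decide (p = 2) || decide (p ∈ l2.map Prod.fst)

theorem l2_all' : ∀ a < 61, ∀ b < 50, good (50 * a + b) = true := by
  decide +kernel

theorem l2_all (p : ℕ) (hp : p < 3011) (h : p.Prime) : p = 2 ∨ p ∈ l2.map Prod.fst := by
  obtain ⟨h1, h2⟩ := (prime_iff p (by omega)).1 h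
  have h3 := l2_all' (p / 50) (by omega) (p % 50) (Nat.mod_lt _ (by norm_num))
  rw [Nat.div_add_mod] at h3
  unfold good at h3
  have h4 : sp.all (fun d => decide (p % d = 0 → p = d)) = true := by
    rw [List.all_eq_true]
    intro d hd
    exact decide_eq_true (h2 d hd)
  rw [h4] at h3
  simp only [hp, h1, decide_true, Bool.and_true, Bool.not_true, Bool.false_or, Bool.or_eq_true,
    decide_eq_true_eq] at h3
  exact h3

theorem l2_nodup : (l2.map Prod.fst).Nodup := by decide +kernel

theorem l2_len1 : ((l2.map Prod.fst).filter (fun p => decide (p ≤ 1471 * 1))).length = 232 := by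
  decide +kernel

theorem l2_len2 : ((l2.map Prod.fst).filter (fun p => decide (p ≤ 1471 * 2))).length = 423 := by
  decide +kernel

theorem l2_len3 : (l2.map Prod.fst).length = 430 := by decide +kernel

theorem l2_le : ∀ p ∈ l2.map Prod.fst, p ≤ 1471 * 3 := by decide +kernel

/-- The number of the odd primes `p ≤ 3001` with `p ≤ N`. -/
def small (N : ℕ) : ℕ := ((l2.map Prod.fst).filter (fun p => decide (p ≤ N))).length

/-- The number of the `i < n` for which `2 i + 1` is rough. -/
def U (n : ℕ) : ℕ := Nat.count (fun i => Rough l2 (1 + 2 * i)) n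

lemma rough_prime (n : ℕ) (h1 : 1 < n) (h2 : n % 2 = 1) (h3 : n < 3011 * 3011)
    (h : Rough l2 n) : n.Prime := by
  by_contra hnp
  have h4 := Nat.minFac_prime (n := n) (by omega)
  have h5 := Nat.minFac_sq_le_self (n := n) (by omega) hnp
  have h6 : n.minFac < 3011 := by nlinarith
  rcases l2_all _ h6 h4 with h7 | h7
  · have h8 := Nat.minFac_dvd n
    rw [h7] at h8
    omega
  · obtain ⟨x, hx, hx1⟩ := List.mem_map.1 h7
    exact h x hx (hx1 ▸ Nat.minFac_dvd n)

theorem primeCounting_eq (N : ℕ) (h2 : 2 ≤ N) (hN : N < 3011 * 3011) :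
    Nat.primeCounting N = small N + U ((N + 1) / 2) := by
  have hpc : Nat.primeCounting N = ((range (N + 1)).filter Nat.Prime).card := by
    unfold Nat.primeCounting Nat.primeCounting'
    rw [Nat.count_eq_card_filter_range]
  have hsmall : small N = ((l2.map Prod.fst).toFinset.filter (fun p => p ≤ N)).card := by
    have h3 : (l2.map Prod.fst).toFinset.filter (fun p => p ≤ N) =
        ((l2.map Prod.fst).filter (fun p => decide (p ≤ N))).toFinset := by
      ext p
      simp only [mem_filter, List.mem_toFinset, List.mem_filter, decide_eq_true_eq]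
    rw [h3, List.toFinset_card_of_nodup (l2_nodup.filter _)]
    rfl
  have hU : U ((N + 1) / 2) =
      (((range ((N + 1) / 2)).filter (fun i => Rough l2 (1 + 2 * i) ∧ i ≠ 0)).card) + 1 := by
    unfold U
    rw [Nat.count_eq_card_filter_range]
    have h3 : (range ((N + 1) / 2)).filter (fun i => Rough l2 (1 + 2 * i)) =
        insert 0 ((range ((N + 1) / 2)).filter (fun i => Rough l2 (1 + 2 * i) ∧ i ≠ 0)) := by
      ext i
      simp only [mem_filter, mem_range, mem_insert]
      constructor
      · rintro ⟨h4, h5⟩
        by_cases h6 : i = 0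
        · left; exact h6
        · right; exact ⟨h4, h5, h6⟩
      · rintro (h4 | ⟨h4, h5, -⟩)
        · subst h4
          refine ⟨by omega, fun x hx hd => ?_⟩
          have := (l2_prime x hx).2.1
          have := Nat.le_of_dvd (by norm_num) hd
          omega
        · exact ⟨h4, h5⟩
    rw [h3, card_insert_of_notMem (by simp)]
  have hset : (range (N + 1)).filter Nat.Prime = insert 2
      ((l2.map Prod.fst).toFinset.filter (fun p => p ≤ N) ∪
        ((range ((N + 1) / 2)).filter (fun i => Rough l2 (1 + 2 * i) ∧ i ≠ 0)).image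
          (fun i => 1 + 2 * i)) := by
    ext n
    simp only [mem_filter, mem_range, mem_insert, mem_union, List.mem_toFinset, mem_image]
    constructor
    · rintro ⟨h3, h4⟩
      rcases h4.eq_two_or_odd with h5 | h5
      · left; exact h5
      · right
        by_cases h6 : n ∈ l2.map Prod.fst
        · left; exact ⟨h6, by omega⟩
        · right
          refine ⟨n / 2, ⟨by omega, fun x hx hd => h6 ?_, ?_⟩, by omega⟩
          · have h7 : 1 + 2 * (n / 2) = n := by omega
            rw [h7] at hd
            rcases (Nat.dvd_prime h4).1 hd with h8 | h8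
            · have := (l2_prime x hx).2.1
              omega
            · exact List.mem_map.2 ⟨x, hx, h8⟩
          · have := h4.two_le
            omega
    · rintro (h3 | ⟨h3, h4⟩ | ⟨i, ⟨h3, h4, h5⟩, h6⟩)
      · subst h3
        exact ⟨by omega, Nat.prime_two⟩
      · obtain ⟨x, hx, hx1⟩ := List.mem_map.1 h3
        exact ⟨by omega, hx1 ▸ (l2_prime x hx).1⟩
      · subst h6
        exact ⟨by omega, rough_prime _ (by omega) (by omega) (by omega) h4⟩
  rw [hpc, hset, card_insert_of_notMem, card_union_of_disjoint, card_image_of_injective, hsmall, hU]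
  · ring
  · intro i j hij
    simp only at hij
    omega
  · rw [disjoint_left]
    intro n h3 h4
    simp only [mem_filter, mem_range, List.mem_toFinset, mem_image] at h3 h4
    obtain ⟨i, ⟨_, h5, _⟩, h6⟩ := h4
    obtain ⟨x, hx, hx1⟩ := List.mem_map.1 h3.1
    exact h5 x hx (by rw [hx1, h6])
  · simp only [mem_filter, mem_range, mem_union, List.mem_toFinset, mem_image, not_or, not_and,
      not_exists]
    constructor
    · intro h3
      obtain ⟨x, hx, hx1⟩ := List.mem_map.1 h3
      have := (l2_prime x hx).2.1
      omega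
    · intro i _
      omega

/-- The number of the odd numbers up to `1471 k`. -/
def idx (k : ℕ) : ℕ := (1471 * k + 1) / 2

/-- The value of `small (1471 k)`. -/
def LL (k : ℕ) : ℕ := if k ≤ 1 then 232 else if k ≤ 2 then 423 else 430

lemma small_eq (k : ℕ) (hk : 1 ≤ k) : small (1471 * k) = LL k := by
  unfold small LL
  split_ifs with h1 h2
  · have : k = 1 := by omega
    subst this
    exact l2_len1
  · have : k = 2 := by omega
    subst this
    exact l2_len2
  · have : (l2.map Prod.fst).filter (fun p => decide (p ≤ 1471 * k)) = l2.map Prod.fst := by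
      rw [List.filter_eq_self]
      intro p hp
      have := l2_le p hp
      simp only [decide_eq_true_eq]
      omega
    rw [this]
    exact l2_len3

lemma pi_eq (k : ℕ) (hk : 1 ≤ k) (hk' : k ≤ 6150) :
    Nat.primeCounting (1471 * k) = U (idx k) + LL k := by
  rw [primeCounting_eq _ (by omega) (by omega), small_eq k hk, idx, add_comm]

/-- Increase `m` while `T (m + 1) ≤ x`. -/
def adv : ℕ → ℕ → ℕ → ℕ
  | 0, m, _ => m
  | f + 1, m, x => if (m + 1) * (m + 2) ≤ 2 * x then adv f (m + 1) x else m

/-- One step of the check. -/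
def okm (m x : ℕ) : Bool := decide (m * (m + 1) < 2 * x) && decide (2 * x < (m + 1) * (m + 2))

/-- The check of `s` consecutive values. -/
def run (B J : ℕ) : ℕ → ℕ → ℕ → ℕ → ℕ → Bool
  | 0, _, u, _, e => u == e
  | s + 1, k, u, m, e =>
    (fun u' => (fun m' => okm m' (u' + LL (k + 1)) && run B J s (k + 1) u' m' e)
      (adv 12 m (u' + LL (k + 1))))
      (u + ((idx (k + 1) - idx k) - cnt 12 ((B >>> (idx k - J)) % 2 ^ (idx (k + 1) - idx k))))

/-- `x` is triangular. -/
def IsTri (x : ℕ) : Prop := ∃ m : ℕ, x = m * (m + 1) / 2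

lemma okm_spec (m x : ℕ) (h : okm m x = true) : ¬ IsTri x := by
  unfold okm at h
  simp only [Bool.and_eq_true, decide_eq_true_eq] at h
  rintro ⟨a, ha⟩
  have h1 : 2 * x = a * (a + 1) := by
    rw [ha]
    exact Nat.mul_div_cancel' (Nat.even_mul_succ_self a).two_dvd
  have h2 : m < a := by
    by_contra hlt
    push Not at hlt
    nlinarith [Nat.mul_le_mul hlt (Nat.add_le_add_right hlt 1)]
  have h3 : a < m + 1 := by
    by_contra hlt
    push Not at hlt
    nlinarith [Nat.mul_le_mul hlt (Nat.add_le_add_right hlt 1)]
  omega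

lemma idx_mono (k : ℕ) : idx k ≤ idx (k + 1) ∧ idx (k + 1) ≤ idx k + 736 := by
  unfold idx
  omega

lemma idx_le (a b : ℕ) (h : a ≤ b) : idx a ≤ idx b := by
  unfold idx
  omega

theorem run_spec (J M : ℕ) (s k u m e : ℕ) (hJ : J ≤ idx k) (hM : idx (k + s) ≤ J + M)
    (hu : U (idx k) = u) (h : run (comp 2 1 J M l2) J s k u m e = true) :
    (∀ j, k < j → j ≤ k + s → ¬ IsTri (U (idx j) + LL j)) ∧ U (idx (k + s)) = e := by
  induction s generalizing k u m with
  | zero =>
    refine ⟨fun j h1 h2 => by omega, ?_⟩
    have h1 : u = e := by simpa [run] using h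
    rw [add_zero, hu, h1]
  | succ s ih =>
    have hm := idx_mono k
    have hle : idx (k + 1) ≤ idx (k + (s + 1)) := idx_le _ _ (by omega)
    have hslice := slice_cnt 2 1 J M l2 l2_ok (idx k - J) (idx (k + 1) - idx k) 12
      (by omega) (by omega) (by norm_num)
    have hU : U (idx (k + 1)) = U (idx k) +
        ((range (idx (k + 1) - idx k)).filter
          (fun j => Rough l2 (1 + 2 * (J + (idx k - J + j))))).card := by
      have e1 : idx (k + 1) = idx k + (idx (k + 1) - idx k) := by omega
      conv_lhs => rw [e1]
      unfold U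
      rw [Nat.count_add, Nat.count_eq_card_filter_range (p := fun i => Rough l2 (1 + 2 * (idx k + i)))]
      congr 3
      funext j
      have e2 : J + (idx k - J + j) = idx k + j := by omega
      rw [e2]
    have hU' : U (idx (k + 1)) = u + ((idx (k + 1) - idx k) -
        cnt 12 ((comp 2 1 J M l2 >>> (idx k - J)) % 2 ^ (idx (k + 1) - idx k))) := by
      rw [hU, hu]
      omega
    rw [run] at h
    simp only [Bool.and_eq_true] at h
    rw [← hU'] at h
    obtain ⟨h1, h2⟩ := h
    have h3 := ih (k + 1) (U (idx (k + 1))) _ (by omega)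
      (by rw [show k + 1 + s = k + (s + 1) by ring]; exact hM) rfl h2
    rw [show k + 1 + s = k + (s + 1) by ring] at h3
    refine ⟨fun j hj1 hj2 => ?_, h3.2⟩
    by_cases hj : j = k + 1
    · subst hj
      exact okm_spec _ _ h1
    · exact h3.1 j (by omega) hj2

/-- The states `(U (idx (50 t)), m)`. -/
def states : List (ℕ × ℕ) :=
  [(0, 15), (6831, 120), (13169, 164), (19234, 197), (25119, 225), (30934, 249), (36615, 271),
  (42233, 291), (47811, 310), (53283, 327), (58771, 343), (64177, 358), (69587, 373), (74924,
  387), (80252, 401), (85524, 414), (90820, 426), (96063, 438), (101298, 450), (106496, 461),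
  (111675, 473), (116845, 483), (121975, 494), (127116, 504), (132209, 514), (137327, 524),
  (142447, 534), (147512, 543), (152602, 552), (157650, 561), (162677, 570), (167737, 579),
  (172684, 587), (177708, 596), (182681, 604), (187675, 612), (192677, 620), (197673, 628),
  (202579, 636), (207595, 644), (212498, 652), (217432, 659), (222342, 666), (227242, 674),
  (232228, 681), (237127, 688), (241993, 695), (246925, 702), (251691, 709), (256556, 716),
  (261461, 723), (266360, 729), (271210, 736), (276058, 743), (280883, 749), (285739, 756),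
  (290559, 762), (295398, 768), (300208, 774), (304974, 781), (309745, 787), (314649, 793),
  (319399, 799), (324206, 805), (328998, 811), (333768, 817), (338547, 822), (343368, 828),
  (348177, 834), (352911, 840), (357669, 845), (362426, 851), (367193, 856), (371932, 862),
  (376681, 867), (381411, 873), (386100, 878), (390811, 884), (395543, 889), (400251, 894),
  (404959, 899), (409724, 905), (414453, 910), (419128, 915), (423832, 920), (428505, 925),
  (433267, 930), (437903, 935), (442576, 940), (447269, 945), (452003, 950), (456618, 955),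
  (461344, 960), (466000, 965), (470717, 970), (475398, 975), (480112, 979), (484743, 984),
  (489394, 989), (494050, 993), (498690, 998), (503338, 1003), (507956, 1007), (512586, 1012),
  (517258, 1017), (521915, 1021), (526487, 1026), (531154, 1030), (535799, 1035), (540410, 1039),
  (545016, 1043), (549633, 1048), (554271, 1052), (558873, 1057), (563489, 1061), (568065, 1065),
  (572711, 1070), (577348, 1074), (581950, 1078), (586581, 1083), (591190, 1087), (595767, 1091),
  (600348, 1095), (604920, 1099)]

/-- The state number `t`. -/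
def stt (t : ℕ) : ℕ × ℕ := states.getD t (0, 0)

/-- The check of the chunk `t`. -/
def chunk (t : ℕ) : Bool :=
  run (comp 2 1 (idx (50 * t)) 36776 l2) (idx (50 * t)) 50 (50 * t) (stt t).1 (stt t).2
    (stt (t + 1)).1

end Pool.Agent.V11292.Tri
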