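import Pool.Agent.V11292.Tri

/-!
# `π(1471 k)` is not triangular for `1 ≤ k ≤ 6150`, and the prime number `1471` is `12301`
-/

set_option autoImplicit false

namespace Pool.Agent.V11292.Tri

open Finset

theorem chunks1 : ∀ t < 41, chunk t = true := by decide +kernel

theorem chunks2 : ∀ t < 41, chunk (41 + t) = true := by decide +kernel

theorem chunks3 : ∀ t < 41, chunk (82 + t) = true := by decide +kernel

theorem chunks (t : ℕ) (ht : t < 123) : chunk t = true := by
  rcases Nat.lt_or_ge t 41 with h | h
  · exact chunks1 t h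
  · rcases Nat.lt_or_ge t 82 with h' | h'
    · have := chunks2 (t - 41) (by omega)
      rwa [show 41 + (t - 41) = t by omega] at this
    · have := chunks3 (t - 82) (by omega)
      rwa [show 82 + (t - 82) = t by omega] at this

lemma chunk_spec (t : ℕ) (ht : t < 123) (hu : U (idx (50 * t)) = (stt t).1) :
    (∀ j, 50 * t < j → j ≤ 50 * t + 50 → ¬ IsTri (U (idx j) + LL j)) ∧
      U (idx (50 * (t + 1))) = (stt (t + 1)).1 := by
  have h := chunks t ht
  unfold chunk at h
  have h1 := run_spec (idx (50 * t)) 36776 50 (50 * t) _ _ _ le_rfl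
    (by unfold idx; omega) hu h
  rw [show 50 * t + 50 = 50 * (t + 1) by ring] at h1 ⊢
  exact h1

lemma start (t : ℕ) (ht : t ≤ 123) : U (idx (50 * t)) = (stt t).1 := by
  induction t with
  | zero => rfl
  | succ t ih => exact (chunk_spec t (by omega) (ih (by omega))).2

theorem not_tri (k : ℕ) (h1 : 1 ≤ k) (h2 : k ≤ 6150) :
    ¬ IsTri (Nat.primeCounting (1471 * k)) := by
  rw [pi_eq k h1 h2]
  have h3 := (chunk_spec ((k - 1) / 50) (by omega) (start _ (by omega))).1 k (by omega) (by omega)
  exact h3

theorem cnt6150 : 6150 - cnt 97 ((comp 2 1 0 6150 l2 >>> 0) % 2 ^ 6150) = 1040 := by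
  decide +kernel

lemma U6150 : U 6150 = 1040 := by
  have h := slice_cnt 2 1 0 6150 l2 l2_ok 0 6150 97 (by norm_num) (by norm_num) (by norm_num)
  have h1 := cnt6150
  unfold U
  rw [Nat.count_eq_card_filter_range]
  have h2 : (range 6150).filter (fun j => Rough l2 (1 + 2 * (0 + (0 + j)))) =
      (range 6150).filter (fun j => Rough l2 (1 + 2 * j)) := by
    apply Finset.filter_congr
    intro j _
    rw [zero_add, zero_add]
  rw [h2] at h
  omega

theorem nth_prime : Nat.nth Nat.Prime 1470 = 12301 := by
  have h1 : Nat.primeCounting 12300 = 1470 := by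
    rw [primeCounting_eq 12300 (by norm_num) (by norm_num)]
    have h2 : small 12300 = 430 := by
      unfold small
      rw [List.filter_eq_self.2]
      · exact l2_len3
      · intro p hp
        have := l2_le p hp
        simp only [decide_eq_true_eq]
        omega
    rw [h2, show (12300 + 1) / 2 = 6150 by norm_num, U6150]
  have h3 : Nat.count Nat.Prime 12301 = 1470 := h1
  have h4 : Nat.Prime 12301 := by norm_num
  rw [← h3]
  exact Nat.nth_count h4

end Pool.Agent.V11292.Tri
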